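import Pool.Agent.Books.Tables

/-! Kernel evaluation of the pointwise inequality. -/

namespace Pool.Agent.Books

def b2n (b : Bool) : ℕ := bif b then 1 else 0

/-- key of the labelled four-point structure -/
def keyN (A : ℕ → ℕ → Bool) (B : ℕ → ℕ → ℕ → Bool) (a b c x : ℕ) : ℕ :=
  b2n (A a b) + 2 * (b2n (A a c) + 2 * (b2n (A a x) + 2 * (b2n (A b c) + 2 * (b2n (A b x) +
  2 * (b2n (A c x) + 2 * (b2n (B a b c) + 2 * (b2n (B a b x) + 2 * (b2n (B a c b) +
  2 * (b2n (B a c x) + 2 * (b2n (B a x b) + 2 * (b2n (B a x c) + 2 * (b2n (B b c a) +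
  2 * (b2n (B b c x) + 2 * (b2n (B b x a) + 2 * (b2n (B b x c) + 2 * (b2n (B c x a) +
  2 * b2n (B c x b)))))))))))))))))

def dotO : Option V7 → Option V7 → ℤ
  | some u, some v => u.x0 * v.x0 + u.x1 * v.x1 + u.x2 * v.x2 + u.x3 * v.x3 + u.x4 * v.x4 +
      u.x5 * v.x5 + u.x6 * v.x6
  | _, _ => 0

def wt (c : ℕ) (b : Bool) : ℤ := (Int.ofNat c) * (bif b then 12 else Int.negSucc 4)

/-- contribution of an ordered quintuple -/
def phiN (A : ℕ → ℕ → Bool) (B : ℕ → ℕ → ℕ → Bool) (a b c x y : ℕ) : ℤ :=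
  dotO (tab (keyN A B a b c x)) (tab (keyN A B a b c y)) +
  (wt (cdT (keyN A B a b c x)) (A a y) + wt (cbT (keyN A B a b c x)) (B a b y))

def sumN (f : ℕ → ℤ) : ℤ := f 0 + (f 1 + (f 2 + (f 3 + f 4)))

def psiN (A : ℕ → ℕ → Bool) (B : ℕ → ℕ → ℕ → Bool) : ℤ :=
  sumN fun a => sumN fun b => bif Nat.beq b a then 0 else
  sumN fun c => bif Nat.beq c a || Nat.beq c b then 0 else
  sumN fun x => bif Nat.beq x a || Nat.beq x b || Nat.beq x c then 0 else
  sumN fun y => bif Nat.beq y a || Nat.beq y b || Nat.beq y c || Nat.beq y x then 0 else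
    phiN A B a b c x y

def accA (ga : ℕ) (i j : ℕ) : Bool := Nat.testBit ga (5 * i + j)
def accB (gi n : ℕ) (i j k : ℕ) : Bool :=
  Nat.testBit (2 * n) ((gi >>> (3 * (25 * i + 5 * j + k))) % 8)

def confl (cf : List (ℕ × ℕ)) (n : ℕ) : Bool :=
  cf.any fun p => Nat.testBit n p.1 && Nat.testBit n p.2

def negI (z : ℤ) : Bool := match z with
  | Int.ofNat _ => false
  | Int.negSucc _ => true

def chk (ga gi : ℕ) (cf : List (ℕ × ℕ)) : ℕ → Bool
  | 0 => true
  | n + 1 => (confl cf n || negI (psiN (accA ga) (accB gi n))) && chk ga gi cf n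

end Pool.Agent.Books
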