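import Mathlib

/-!
# Books in graphs of large minimum degree: local structures

Shared definitions for `Pool.Agent.Books.*` (problem MP_cd78fc_co).
A structure on a type consists of a Boolean binary relation `A` (adjacency) and a Boolean
ternary relation `B` (`B u v w`: `w` is adjacent to the chosen third vertex of the edge `uv`).
-/

namespace Pool.Agent.Books

open Finset

/-- structures on four labelled points -/
abbrev S4 := (Fin 4 → Fin 4 → Bool) × (Fin 4 → Fin 4 → Fin 4 → Bool)

/-- restriction of a structure `(A, B)` to four listed points -/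
def res4 {α : Type*} (A : α → α → Bool) (B : α → α → α → Bool) (v : Fin 4 → α) : S4 :=
  (fun i j => A (v i) (v j), fun i j k => if k = i ∨ k = j then false else B (v i) (v j) (v k))

/-- integer value of a Boolean -/
def bi (b : Bool) : ℤ := if b then 1 else 0

/-- the local integrand -/
def phi {m : ℕ} {α : Type*} (g : S4 → Fin m → ℤ) (cd cb : S4 → ℕ)
    (A : α → α → Bool) (B : α → α → α → Bool) (a b c x y : α) : ℤ :=
  (∑ i, g (res4 A B ![a, b, c, x]) i * g (res4 A B ![a, b, c, y]) i)
  + (cd (res4 A B ![a, b, c, x]) : ℤ) * (17 * bi (A a y) - 5)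
  + (cb (res4 A B ![a, b, c, x]) : ℤ) * (17 * bi (B a b y) - 5)

/-- the structures on five points which occur -/
structure Valid (A : Fin 5 → Fin 5 → Bool) (B : Fin 5 → Fin 5 → Fin 5 → Bool) : Prop where
  irr : ∀ i, A i i = false
  symm : ∀ i j, A i j = A j i
  tri : ∀ i j k, A i j = true → A j k = true → A i k = false
  bsymm : ∀ i j k, B i j k = B j i k
  badj : ∀ i j k, B i j k = true → A i j = true
  bne : ∀ i j k, B i j k = true → k ≠ i
  bnon : ∀ i j k, B i j k = true → A i k = false
  bind : ∀ i j k l, B i j k = true → B i j l = true → A k l = false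

/-- the pointwise inequality -/
def Pointwise {m : ℕ} (g : S4 → Fin m → ℤ) (cd cb : S4 → ℕ) : Prop :=
  ∀ (A : Fin 5 → Fin 5 → Bool) (B : Fin 5 → Fin 5 → Fin 5 → Bool), Valid A B →
    ∑ σ : Equiv.Perm (Fin 5), phi g cd cb A B (σ 0) (σ 1) (σ 2) (σ 3) (σ 4) ≤ -1

end Pool.Agent.Books
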