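import Mathlib

/-! The example for `2/7` (due to helper33). -/

namespace Pool.Agent.Books

open Finset Classical

/-- classes indexed by `ZMod 7`, consecutive ones complete to each other, classes at distance 3
joined by `s₁ = t₂` -/
def ex (q : ℕ) : SimpleGraph (ZMod 7 × Fin q × Fin q) where
  Adj u v := v.1 - u.1 = 1 ∨ v.1 - u.1 = 6 ∨ (v.1 - u.1 = 3 ∧ u.2.1 = v.2.2) ∨
    (v.1 - u.1 = 4 ∧ v.2.1 = u.2.2)
  symm := ⟨by
    intro u v h
    have e : u.1 - v.1 = -(v.1 - u.1) := by ring
    rw [e]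
    rcases h with h | h | ⟨h, h'⟩ | ⟨h, h'⟩
    · rw [h]; right; left; decide
    · rw [h]; left; decide
    · rw [h]; right; right; right; exact ⟨by decide, h'⟩
    · rw [h]; right; right; left; exact ⟨by decide, h'⟩⟩
  loopless := ⟨by
    intro u h
    rw [sub_self] at h
    rcases h with h | h | ⟨h, -⟩ | ⟨h, -⟩ <;> exact absurd h (by decide)⟩

theorem ex_adj {q : ℕ} (u v : ZMod 7 × Fin q × Fin q) : (ex q).Adj u v ↔
    v.1 - u.1 = 1 ∨ v.1 - u.1 = 6 ∨ (v.1 - u.1 = 3 ∧ u.2.1 = v.2.2) ∨
    (v.1 - u.1 = 4 ∧ v.2.1 = u.2.2) := Iff.rfl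

theorem ex_tri {q : ℕ} (u v : ZMod 7 × Fin q × Fin q) (h : (ex q).Adj u v) :
    ∃ w, (ex q).Adj u w ∧ (ex q).Adj v w := by
  have main : ∀ (u v : ZMod 7 × Fin q × Fin q), (v.1 - u.1 = 1 ∨
      (v.1 - u.1 = 3 ∧ u.2.1 = v.2.2)) → ∃ w, (ex q).Adj u w ∧ (ex q).Adj v w := by
    intro u v h
    rcases h with h | ⟨h, h'⟩
    · refine ⟨(u.1 + 4, u.2.2, v.2.1), ?_, ?_⟩
      · rw [ex_adj]; right; right; right; exact ⟨by simp, rfl⟩
      · rw [ex_adj]; right; right; left
        have : (u.1 + 4 - v.1) = 4 - (v.1 - u.1) := by ring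
        refine ⟨?_, rfl⟩
        show u.1 + 4 - v.1 = 3
        rw [this, h]; decide
    · refine ⟨(u.1 + 4, u.2.2, u.2.2), ?_, ?_⟩
      · rw [ex_adj]; right; right; right; exact ⟨by simp, rfl⟩
      · rw [ex_adj]; left
        show u.1 + 4 - v.1 = 1
        have : (u.1 + 4 - v.1) = 4 - (v.1 - u.1) := by ring
        rw [this, h]; decide
  have e : u.1 - v.1 = -(v.1 - u.1) := by ring
  rcases h with h | h | h | h
  · exact main u v (Or.inl h)
  · obtain ⟨w, h1, h2⟩ := main v u (Or.inl (by rw [e, h]; decide))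
    exact ⟨w, h2, h1⟩
  · exact main u v (Or.inr h)
  · obtain ⟨w, h1, h2⟩ := main v u (Or.inr ⟨by rw [e, h.1]; decide, h.2⟩)
    exact ⟨w, h2, h1⟩

theorem ex_book {q : ℕ} (hq : 1 ≤ q) (u v : ZMod 7 × Fin q × Fin q) (h : (ex q).Adj u v) :
    (univ.filter fun w => (ex q).Adj u w ∧ (ex q).Adj v w).card ≤ 2 * q := by
  have main : ∀ (u v : ZMod 7 × Fin q × Fin q), (v.1 - u.1 = 1 ∨
      (v.1 - u.1 = 3 ∧ u.2.1 = v.2.2)) →
      (univ.filter fun w => (ex q).Adj u w ∧ (ex q).Adj v w).card ≤ 2 * q := by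
    intro u v h
    rcases h with h | ⟨h, h'⟩
    · have hs : (univ.filter fun w => (ex q).Adj u w ∧ (ex q).Adj v w) ⊆
          {(u.1 + 4, u.2.2, v.2.1)} := by
        intro w hw
        rw [mem_filter, ex_adj, ex_adj] at hw
        obtain ⟨-, h1, h2⟩ := hw
        have e : w.1 - v.1 = (w.1 - u.1) - (v.1 - u.1) := by ring
        rw [e, h] at h2
        rw [mem_singleton]
        rcases h1 with h1 | h1 | ⟨h1, h1'⟩ | ⟨h1, h1'⟩ <;> rw [h1] at h2 <;>
          rcases h2 with h2 | h2 | ⟨h2, h2'⟩ | ⟨h2, h2'⟩ <;>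
          first
          | exact absurd h2 (by decide)
          | (refine Prod.ext ?_ (Prod.ext h1' h2'.symm)
             show w.1 = u.1 + 4
             rw [← h1]; ring)
      refine (card_le_card hs).trans ?_
      rw [card_singleton]; omega
    · have hs : (univ.filter fun w => (ex q).Adj u w ∧ (ex q).Adj v w) ⊆
          (univ.image fun y : Fin q => ((u.1 + 4, u.2.2, y) : ZMod 7 × Fin q × Fin q)) ∪
          (univ.image fun x : Fin q => ((u.1 + 6, x, v.2.1) : ZMod 7 × Fin q × Fin q)) := by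
        intro w hw
        rw [mem_filter, ex_adj, ex_adj] at hw
        obtain ⟨-, h1, h2⟩ := hw
        have e : w.1 - v.1 = (w.1 - u.1) - (v.1 - u.1) := by ring
        rw [e, h] at h2
        rw [mem_union, mem_image, mem_image]
        rcases h1 with h1 | h1 | ⟨h1, h1'⟩ | ⟨h1, h1'⟩ <;> rw [h1] at h2 <;>
          rcases h2 with h2 | h2 | ⟨h2, h2'⟩ | ⟨h2, h2'⟩ <;>
          first
          | exact absurd h2 (by decide)
          | (right
             refine ⟨w.2.1, mem_univ _, ?_⟩
             refine Prod.ext ?_ (Prod.ext rfl h2')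
             show u.1 + 6 = w.1
             rw [← h1]; ring)
          | (left
             refine ⟨w.2.2, mem_univ _, ?_⟩
             refine Prod.ext ?_ (Prod.ext h1'.symm rfl)
             show u.1 + 4 = w.1
             rw [← h1]; ring)
      refine (card_le_card hs).trans ((card_union_le _ _).trans ?_)
      have i1 := card_image_le (s := (univ : Finset (Fin q)))
        (f := fun y : Fin q => ((u.1 + 4, u.2.2, y) : ZMod 7 × Fin q × Fin q))
      have i2 := card_image_le (s := (univ : Finset (Fin q)))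
        (f := fun x : Fin q => ((u.1 + 6, x, v.2.1) : ZMod 7 × Fin q × Fin q))
      rw [card_univ, Fintype.card_fin] at i1 i2
      omega
  have e : u.1 - v.1 = -(v.1 - u.1) := by ring
  have sw : (univ.filter fun w => (ex q).Adj u w ∧ (ex q).Adj v w) =
      (univ.filter fun w => (ex q).Adj v w ∧ (ex q).Adj u w) := by
    ext w; simp only [mem_filter, and_comm]
  rcases h with h | h | h | h
  · exact main u v (Or.inl h)
  · rw [sw]; exact main v u (Or.inl (by rw [e, h]; decide))
  · exact main u v (Or.inr h)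
  · rw [sw]; exact main v u (Or.inr ⟨by rw [e, h.1]; decide, h.2⟩)

theorem ex_deg {q : ℕ} (u : ZMod 7 × Fin q × Fin q) :
    2 * q ^ 2 + 1 ≤ (univ.filter fun w => (ex q).Adj u w).card := by
  have hs : insert ((u.1 + 3, u.2.1, u.2.1) : ZMod 7 × Fin q × Fin q)
      (({u.1 + 1, u.1 + 6} : Finset (ZMod 7)) ×ˢ (univ : Finset (Fin q × Fin q))) ⊆
      (univ.filter fun w => (ex q).Adj u w) := by
    intro w hw
    rw [mem_filter, ex_adj]
    refine ⟨mem_univ _, ?_⟩
    rw [mem_insert, mem_product, mem_insert, mem_singleton] at hw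
    rcases hw with rfl | ⟨h | h, -⟩
    · right; right; left; exact ⟨by simp, rfl⟩
    · left; rw [h]; ring
    · right; left; rw [h]; ring
  refine le_trans ?_ (card_le_card hs)
  rw [card_insert_of_notMem, card_product, card_univ, Fintype.card_prod, Fintype.card_fin,
    card_pair]
  · apply le_of_eq; ring
  · intro h
    have : (1 : ZMod 7) = 6 := add_left_cancel h
    exact absurd this (by decide)
  · intro h
    rw [mem_product, mem_insert, mem_singleton] at h
    rcases h with ⟨h | h, -⟩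
    · exact absurd (add_left_cancel h) (by decide)
    · exact absurd (add_left_cancel h) (by decide)

/-- the example on `7q²` vertices -/
theorem example_two_sevenths (q : ℕ) (hq : 1 ≤ q) : ∃ G : SimpleGraph (Fin (7 * q ^ 2)),
    (∀ v, 2 * q ^ 2 < G.degree v) ∧
    (∀ u v, G.Adj u v → ∃ w, G.Adj u w ∧ G.Adj v w) ∧
    ∀ u v, G.Adj u v → (univ.filter fun w => G.Adj u w ∧ G.Adj v w).card ≤ 2 * q := by
  have hc : Fintype.card (ZMod 7 × Fin q × Fin q) = 7 * q ^ 2 := by
    rw [Fintype.card_prod, Fintype.card_prod, Fintype.card_fin, ZMod.card]; ring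
  let e := Fintype.equivFinOfCardEq hc
  have tr : ∀ P : ZMod 7 × Fin q × Fin q → Prop,
      (univ.filter fun w : Fin (7 * q ^ 2) => P (e.symm w)).card = (univ.filter P).card := by
    intro P
    refine card_bij (fun w _ => e.symm w) ?_ ?_ ?_
    · intro w hw; rw [mem_filter] at hw ⊢; exact ⟨mem_univ _, hw.2⟩
    · intro a _ b _ h; exact e.symm.injective h
    · intro w hw
      refine ⟨e w, ?_, by simp⟩
      rw [mem_filter] at hw ⊢
      exact ⟨mem_univ _, by simpa using hw.2⟩
  refine ⟨(ex q).comap e.symm, ?_, ?_, ?_⟩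
  · intro v
    have h1 : ((ex q).comap e.symm).degree v =
        (univ.filter fun w => (ex q).Adj (e.symm v) w).card := by
      rw [← tr (fun w => (ex q).Adj (e.symm v) w), ← SimpleGraph.card_neighborFinset_eq_degree,
        SimpleGraph.neighborFinset_eq_filter]
      congr 1
    have h2 := ex_deg (e.symm v)
    rw [← h1] at h2
    exact h2
  · intro u v h
    obtain ⟨w, h1, h2⟩ := ex_tri (e.symm u) (e.symm v) h
    exact ⟨e w, by simpa [SimpleGraph.comap_adj] using h1,
      by simpa [SimpleGraph.comap_adj] using h2⟩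
  · intro u v h
    have h1 := ex_book hq (e.symm u) (e.symm v) h
    have h2 := tr (fun w => (ex q).Adj (e.symm u) w ∧ (ex q).Adj (e.symm v) w)
    calc _ = _ := by
          congr 1; ext w; simp only [mem_filter, mem_univ, true_and, SimpleGraph.comap_adj]
      _ = _ := h2
      _ ≤ _ := le_trans (le_of_eq (by
          congr 1; ext w; simp only [mem_filter, mem_univ, true_and])) h1

end Pool.Agent.Books
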