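import Pool.Agent.Books.Core

namespace Pool.Agent.Books

open Finset Classical

section Counting

variable {V : Type} [Fintype V]

/-- counting with one coordinate updated -/
theorem card_update_eq (l : Fin 5) (P : (Fin 5 → V) → Prop) :
    Fintype.card V * (univ.filter P).card =
      ∑ v : Fin 5 → V, (univ.filter fun w => P (Function.update v l w)).card := by
  let e : ((Fin 5 → V) × V) ≃ ((Fin 5 → V) × V) :=
    { toFun := fun p => (Function.update p.1 l p.2, p.1 l)
      invFun := fun p => (Function.update p.1 l p.2, p.1 l)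
      left_inv := by
        rintro ⟨v, w⟩
        simp
      right_inv := by
        rintro ⟨v, w⟩
        simp }
  have h1 : ∑ v : Fin 5 → V, (univ.filter fun w => P (Function.update v l w)).card =
      ∑ p : (Fin 5 → V) × V, (if P (Function.update p.1 l p.2) then 1 else 0) := by
    rw [Fintype.sum_prod_type]
    refine Finset.sum_congr rfl fun v _ => ?_
    rw [Finset.card_filter]
  have h2 : ∑ p : (Fin 5 → V) × V, (if P (Function.update p.1 l p.2) then 1 else 0) =
      ∑ p : (Fin 5 → V) × V, (if P p.1 then 1 else 0) := by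
    exact Fintype.sum_equiv e _ _ (fun p => rfl)
  rw [h1, h2, Fintype.sum_prod_type]
  have h3 : ∀ v : Fin 5 → V, ∑ _w : V, (if P v then 1 else 0) =
      Fintype.card V * (if P v then 1 else 0) := by
    intro v
    rw [Finset.sum_const, Finset.card_univ, smul_eq_mul]
  rw [Finset.sum_congr rfl fun v _ => h3 v, ← Finset.mul_sum, Finset.card_filter]

/-- few tuples satisfy `P` -/
def Small (V : Type) [Fintype V] (b C : ℕ) (P : (Fin 5 → V) → Prop) : Prop :=
  Fintype.card V * (univ.filter P).card ≤ C * (b * Fintype.card (Fin 5 → V))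

theorem small_update (b : ℕ) (l : Fin 5) (P : (Fin 5 → V) → Prop)
    (h : ∀ v : Fin 5 → V, (univ.filter fun w => P (Function.update v l w)).card ≤ b) :
    Small V b 1 P := by
  unfold Small
  rw [card_update_eq l P, one_mul]
  calc ∑ v : Fin 5 → V, (univ.filter fun w => P (Function.update v l w)).card
      ≤ ∑ _v : Fin 5 → V, b := Finset.sum_le_sum fun v _ => h v
    _ = b * Fintype.card (Fin 5 → V) := by
        rw [Finset.sum_const, Finset.card_univ, smul_eq_mul, mul_comm]

theorem Small.mono {b C : ℕ} {P Q : (Fin 5 → V) → Prop} (h : Small V b C Q)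
    (hPQ : ∀ v, P v → Q v) : Small V b C P := by
  unfold Small at *
  refine le_trans ?_ h
  refine Nat.mul_le_mul_left _ (Finset.card_le_card ?_)
  intro v hv
  simp only [Finset.mem_filter, Finset.mem_univ, true_and] at *
  exact hPQ v hv

theorem Small.or {b C D : ℕ} {P Q : (Fin 5 → V) → Prop} (hP : Small V b C P)
    (hQ : Small V b D Q) : Small V b (C + D) (fun v => P v ∨ Q v) := by
  unfold Small at *
  have h : (univ.filter fun v => P v ∨ Q v).card ≤ (univ.filter P).card + (univ.filter Q).card := by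
    rw [Finset.filter_or]
    exact Finset.card_union_le _ _
  have h2 : Fintype.card V * (univ.filter fun v => P v ∨ Q v).card ≤
      (C + D) * (b * Fintype.card (Fin 5 → V)) := by
    calc _ ≤ Fintype.card V * ((univ.filter P).card + (univ.filter Q).card) :=
          Nat.mul_le_mul_left _ h
      _ ≤ _ := by
          rw [Nat.mul_add, Nat.add_mul]
          exact Nat.add_le_add hP hQ
  convert h2

theorem small_exists {b : ℕ} {T : Type} [Fintype T] {Q : T → (Fin 5 → V) → Prop}
    (h : ∀ t, Small V b 1 (Q t)) : Small V b (Fintype.card T) (fun v => ∃ t, Q t v) := by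
  unfold Small at *
  have h1 : (univ.filter fun v => ∃ t, Q t v).card ≤ ∑ t : T, (univ.filter (Q t)).card := by
    have : (univ.filter fun v => ∃ t, Q t v) = univ.biUnion fun t => univ.filter (Q t) := by
      ext v
      simp
    rw [this]
    exact Finset.card_biUnion_le
  have h2 : Fintype.card V * (univ.filter fun v => ∃ t, Q t v).card ≤
      Fintype.card T * (b * Fintype.card (Fin 5 → V)) := by
    calc _ ≤ Fintype.card V * ∑ t : T, (univ.filter (Q t)).card := Nat.mul_le_mul_left _ h1
      _ = ∑ t : T, Fintype.card V * (univ.filter (Q t)).card := by rw [Finset.mul_sum]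
      _ ≤ ∑ _t : T, (b * Fintype.card (Fin 5 → V)) :=
          Finset.sum_le_sum fun t _ => by simpa using h t
      _ = _ := by rw [Finset.sum_const, Finset.card_univ, smul_eq_mul]
  convert h2

end Counting

/-- tuples as iterated pairs -/
def tupEquiv (V : Type) : (Fin 5 → V) ≃ V × V × V × V × V where
  toFun v := (v 0, v 1, v 2, v 3, v 4)
  invFun p := ![p.1, p.2.1, p.2.2.1, p.2.2.2.1, p.2.2.2.2]
  left_inv v := by
    funext i
    fin_cases i <;> rfl
  right_inv p := rfl

theorem sum_tup {V : Type} [Fintype V] (f : V → V → V → V → V → ℤ) :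
    ∑ v : Fin 5 → V, f (v 0) (v 1) (v 2) (v 3) (v 4) =
      ∑ a, ∑ b, ∑ c, ∑ x, ∑ y, f a b c x y := by
  rw [Fintype.sum_equiv (tupEquiv V) (fun v => f (v 0) (v 1) (v 2) (v 3) (v 4))
    (fun p => f p.1 p.2.1 p.2.2.1 p.2.2.2.1 p.2.2.2.2) (fun v => rfl)]
  simp only [Fintype.sum_prod_type]

/-- the integrand only depends on the five-point structure -/
theorem phi_pull {m : ℕ} {V : Type} (g : S4 → Fin m → ℤ) (cd cb : S4 → ℕ)
    (A : V → V → Bool) (B : V → V → V → Bool) (v : Fin 5 → V) (s : Equiv.Perm (Fin 5)) :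
    phi g cd cb A B (v (s 0)) (v (s 1)) (v (s 2)) (v (s 3)) (v (s 4)) =
      phi g cd cb (fun i j => A (v i) (v j))
        (fun i j k => if k = i ∨ k = j then false else B (v i) (v j) (v k))
        (s 0) (s 1) (s 2) (s 3) (s 4) := by
  have key : ∀ w : Fin 4 → Fin 5, Function.Injective w →
      res4 A B (fun i => v (w i)) = res4 (fun i j => A (v i) (v j))
        (fun i j k => if k = i ∨ k = j then false else B (v i) (v j) (v k)) w := by
    intro w hw
    unfold res4
    refine Prod.ext rfl ?_
    funext i j k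
    by_cases h : k = i ∨ k = j
    · simp [h]
    · have h' : ¬ (w k = w i ∨ w k = w j) := by
        rintro (h1 | h1)
        · exact h (Or.inl (hw h1))
        · exact h (Or.inr (hw h1))
      simp only [if_neg h, if_neg h']
  have hx : (![v (s 0), v (s 1), v (s 2), v (s 3)] : Fin 4 → V) =
      fun i => v ((![s 0, s 1, s 2, s 3] : Fin 4 → Fin 5) i) := by
    funext i
    fin_cases i <;> rfl
  have hy : (![v (s 0), v (s 1), v (s 2), v (s 4)] : Fin 4 → V) =
      fun i => v ((![s 0, s 1, s 2, s 4] : Fin 4 → Fin 5) i) := by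
    funext i
    fin_cases i <;> rfl
  have ix : Function.Injective (![s 0, s 1, s 2, s 3] : Fin 4 → Fin 5) := by
    have : (![s 0, s 1, s 2, s 3] : Fin 4 → Fin 5) = s ∘ (![0, 1, 2, 3] : Fin 4 → Fin 5) := by
      funext i
      fin_cases i <;> rfl
    rw [this]
    exact s.injective.comp (by decide)
  have iy : Function.Injective (![s 0, s 1, s 2, s 4] : Fin 4 → Fin 5) := by
    have : (![s 0, s 1, s 2, s 4] : Fin 4 → Fin 5) = s ∘ (![0, 1, 2, 4] : Fin 4 → Fin 5) := by
      funext i
      fin_cases i <;> rfl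
    rw [this]
    exact s.injective.comp (by decide)
  have h40 : ¬ (s 4 = s 0 ∨ s 4 = s 1) := by
    rintro (h | h)
    · exact absurd (s.injective h) (by decide)
    · exact absurd (s.injective h) (by decide)
  unfold phi
  rw [hx, hy, key _ ix, key _ iy]
  simp only [if_neg h40]

/-- **Framework.**  A pointwise inequality on five points gives a linear lower bound for the book
size of every graph of minimum degree at least `5n/17` in which every edge lies in a triangle. -/
theorem framework {m : ℕ} (g : S4 → Fin m → ℤ) (cd cb : S4 → ℕ)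
    (hcb : ∀ s, cb s ≠ 0 → s.1 0 1 = true) (hpt : Pointwise g cd cb) :
    ∃ K : ℕ, ∀ (V : Type) [Fintype V] [Nonempty V] (G : SimpleGraph V) (b : ℕ),
      (∀ v, 5 * Fintype.card V ≤ 17 * G.degree v) →
      (∀ u v, G.Adj u v → ∃ w, G.Adj u w ∧ G.Adj v w) →
      (∀ u v, G.Adj u v → (univ.filter fun w => G.Adj u w ∧ G.Adj v w).card ≤ b) →
      Fintype.card V ≤ K * b := by
  -- absolute bound for the symmetrised integrand
  obtain ⟨M, hM⟩ : ∃ M : ℕ, ∀ (A : Fin 5 → Fin 5 → Bool) (B : Fin 5 → Fin 5 → Fin 5 → Bool),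
      ∑ σ : Equiv.Perm (Fin 5), phi g cd cb A B (σ 0) (σ 1) (σ 2) (σ 3) (σ 4) ≤ (M : ℤ) := by
    let F : ((Fin 5 → Fin 5 → Bool) × (Fin 5 → Fin 5 → Fin 5 → Bool)) → ℤ := fun p =>
      ∑ σ : Equiv.Perm (Fin 5), phi g cd cb p.1 p.2 (σ 0) (σ 1) (σ 2) (σ 3) (σ 4)
    obtain ⟨M0, hM0⟩ := (Set.finite_range F).bddAbove
    refine ⟨M0.toNat, fun A B => ?_⟩
    have h1 : F (A, B) ≤ M0 := hM0 ⟨(A, B), rfl⟩
    exact le_trans h1 (Int.self_le_toNat M0)
  let C0 : ℕ := Fintype.card (Fin 5 × Fin 5 × Fin 5) +
    (Fintype.card (Fin 5 × Fin 5 × Fin 5) + Fintype.card (Fin 5 × Fin 5 × Fin 5 × Fin 5))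
  refine ⟨(M + 1) * C0, ?_⟩
  intro V _ _ G b hdeg htri hbook
  -- the common neighbours
  have hz : ∃ z : Sym2 V → V, ∀ u v, G.Adj u v → G.Adj u (z s(u, v)) ∧ G.Adj v (z s(u, v)) := by
    have : ∀ e : Sym2 V, ∃ w : V, ∀ u v, s(u, v) = e → G.Adj u v → G.Adj u w ∧ G.Adj v w := by
      intro e
      induction e using Sym2.ind with
      | _ p q =>
        by_cases h : G.Adj p q
        · obtain ⟨w, hw1, hw2⟩ := htri p q h
          refine ⟨w, fun u v huv _ => ?_⟩
          rcases Sym2.eq_iff.mp huv with ⟨rfl, rfl⟩ | ⟨rfl, rfl⟩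
          · exact ⟨hw1, hw2⟩
          · exact ⟨hw2, hw1⟩
        · refine ⟨p, fun u v huv hadj => ?_⟩
          exfalso
          rcases Sym2.eq_iff.mp huv with ⟨rfl, rfl⟩ | ⟨rfl, rfl⟩
          · exact h hadj
          · exact h hadj.symm
    choose z hz using this
    exact ⟨z, fun u v h => hz s(u, v) u v rfl h⟩
  obtain ⟨z, hz⟩ := hz
  let A : V → V → Bool := fun u v => decide (G.Adj u v)
  let B : V → V → V → Bool := fun u v w => decide (G.Adj u v ∧ G.Adj (z s(u, v)) w)
  have hAdef : ∀ u v, A u v = true ↔ G.Adj u v := fun u v => by simp [A]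
  have hBdef : ∀ u v w, B u v w = true ↔ (G.Adj u v ∧ G.Adj (z s(u, v)) w) :=
    fun u v w => by simp [B]
  let A5 : (Fin 5 → V) → Fin 5 → Fin 5 → Bool := fun v i j => A (v i) (v j)
  let B5 : (Fin 5 → V) → Fin 5 → Fin 5 → Fin 5 → Bool := fun v i j k =>
    if k = i ∨ k = j then false else B (v i) (v j) (v k)
  have hB5 : ∀ v i j k, B5 v i j k = true ↔
      (k ≠ i ∧ k ≠ j ∧ G.Adj (v i) (v j) ∧ G.Adj (z s(v i, v j)) (v k)) := by
    intro v i j k
    by_cases h : k = i ∨ k = j
    · simp only [B5, if_pos h]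
      constructor
      · intro h'; exact absurd h' (by decide)
      · rintro ⟨h1, h2, -⟩
        rcases h with h | h
        · exact absurd h h1
        · exact absurd h h2
    · simp only [B5, if_neg h]
      rw [hBdef]
      push Not at h
      tauto
  -- nonnegativity
  have hnn : 0 ≤ ∑ v : Fin 5 → V, phi g cd cb A B (v 0) (v 1) (v 2) (v 3) (v 4) := by
    rw [sum_tup (fun a b c x y => phi g cd cb A B a b c x y)]
    refine Finset.sum_nonneg fun a _ => Finset.sum_nonneg fun b' _ =>
      Finset.sum_nonneg fun c _ => ?_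
    have hsumA : ∀ a : V, ∑ y, (17 * bi (A a y) - 5) = 17 * (G.degree a : ℤ) - 5 * Fintype.card V := by
      intro a
      rw [Finset.sum_sub_distrib, ← Finset.mul_sum]
      have : ∑ y, bi (A a y) = (G.degree a : ℤ) := by
        rw [← SimpleGraph.card_neighborFinset_eq_degree, SimpleGraph.neighborFinset_eq_filter,
          Finset.card_filter]
        push_cast
        refine Finset.sum_congr rfl fun y _ => ?_
        simp only [bi, A, decide_eq_true_eq]
      rw [this]
      simp
      ring
    have hposA : ∀ a : V, 0 ≤ ∑ y, (17 * bi (A a y) - 5) := by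
      intro a
      rw [hsumA]
      have := hdeg a
      have h2 : (5 * Fintype.card V : ℤ) ≤ 17 * (G.degree a : ℤ) := by exact_mod_cast this
      linarith
    simp only [phi, Finset.sum_add_distrib]
    refine add_nonneg (add_nonneg ?_ ?_) ?_
    · have : ∑ x, ∑ y, ∑ i, g (res4 A B ![a, b', c, x]) i * g (res4 A B ![a, b', c, y]) i =
          ∑ i, (∑ x, g (res4 A B ![a, b', c, x]) i) ^ 2 := by
        have h1 : ∀ i, (∑ x, g (res4 A B ![a, b', c, x]) i) ^ 2 =
            ∑ x, ∑ y, g (res4 A B ![a, b', c, x]) i * g (res4 A B ![a, b', c, y]) i := by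
          intro i
          rw [sq, Finset.sum_mul_sum]
        simp only [h1]
        have h2 : ∀ x, ∑ y, ∑ i, g (res4 A B ![a, b', c, x]) i * g (res4 A B ![a, b', c, y]) i =
            ∑ i, ∑ y, g (res4 A B ![a, b', c, x]) i * g (res4 A B ![a, b', c, y]) i :=
          fun x => Finset.sum_comm
        rw [Finset.sum_congr rfl fun x _ => h2 x]
        exact Finset.sum_comm
      rw [this]
      exact Finset.sum_nonneg fun i _ => sq_nonneg _
    · refine Finset.sum_nonneg fun x _ => ?_
      rw [← Finset.mul_sum]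
      exact mul_nonneg (by positivity) (hposA a)
    · refine Finset.sum_nonneg fun x _ => ?_
      rw [← Finset.mul_sum]
      by_cases h0 : cb (res4 A B ![a, b', c, x]) = 0
      · rw [h0]; simp
      · have hadj : G.Adj a b' := by
          have := hcb _ h0
          have h2 : A a b' = true := this
          exact (hAdef a b').mp h2
        refine mul_nonneg (by positivity) ?_
        have : ∑ y, (17 * bi (B a b' y) - 5) = ∑ y, (17 * bi (A (z s(a, b')) y) - 5) := by
          refine Finset.sum_congr rfl fun y _ => ?_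
          have : B a b' y = A (z s(a, b')) y := by
            simp only [B, A, hadj, true_and]
          rw [this]
        rw [this]
        exact hposA _
  -- symmetrisation
  have hsym : ∑ v : Fin 5 → V, ∑ σ : Equiv.Perm (Fin 5),
      phi g cd cb (A5 v) (B5 v) (σ 0) (σ 1) (σ 2) (σ 3) (σ 4) =
      (Fintype.card (Equiv.Perm (Fin 5)) : ℤ) *
        ∑ v : Fin 5 → V, phi g cd cb A B (v 0) (v 1) (v 2) (v 3) (v 4) := by
    rw [Finset.sum_comm]
    have h1 : ∀ σ : Equiv.Perm (Fin 5), ∑ v : Fin 5 → V,
        phi g cd cb (A5 v) (B5 v) (σ 0) (σ 1) (σ 2) (σ 3) (σ 4) =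
        ∑ v : Fin 5 → V, phi g cd cb A B (v 0) (v 1) (v 2) (v 3) (v 4) := by
      intro σ
      refine Fintype.sum_equiv (Equiv.arrowCongr σ.symm (Equiv.refl V)) _ _ (fun v => ?_)
      rw [← phi_pull g cd cb A B v σ]
      rfl
    rw [Finset.sum_congr rfl fun σ _ => h1 σ, Finset.sum_const, Finset.card_univ, nsmul_eq_mul]
  -- bad tuples
  let Bad : (Fin 5 → V) → Prop := fun v => ¬ Valid (A5 v) (B5 v)
  have hgood : ∀ v, ¬ Bad v → ∑ σ : Equiv.Perm (Fin 5),
      phi g cd cb (A5 v) (B5 v) (σ 0) (σ 1) (σ 2) (σ 3) (σ 4) ≤ -1 := by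
    intro v hv
    exact hpt _ _ (not_not.mp hv)
  have hsmall : Small V b C0 Bad := by
    have hT2 : ∀ t : Fin 5 × Fin 5 × Fin 5, Small V b 1
        (fun v => t.1 ≠ t.2.2 ∧ t.2.1 ≠ t.2.2 ∧ G.Adj (v t.1) (v t.2.1) ∧
          G.Adj (v t.2.1) (v t.2.2) ∧ G.Adj (v t.1) (v t.2.2)) := by
      rintro ⟨i, j, k⟩
      refine small_update b k _ fun v => ?_
      by_cases hik : i = k
      · simp [hik]
      by_cases hjk : j = k
      · simp [hjk]
      by_cases hadj : G.Adj (v i) (v j)
      · refine le_trans (Finset.card_le_card ?_) (hbook (v i) (v j) hadj)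
        intro w hw
        simp only [Finset.mem_filter, Finset.mem_univ, true_and,
          Function.update_self, Function.update_of_ne hik, Function.update_of_ne hjk] at hw ⊢
        exact ⟨hw.2.2.2.2, hw.2.2.2.1⟩
      · simp [Function.update_of_ne hik, Function.update_of_ne hjk, hadj]
    have hT3 : ∀ t : Fin 5 × Fin 5 × Fin 5, Small V b 1
        (fun v => t.2.2 ≠ t.1 ∧ t.2.2 ≠ t.2.1 ∧ G.Adj (v t.1) (v t.2.1) ∧
          G.Adj (z s(v t.1, v t.2.1)) (v t.2.2) ∧ G.Adj (v t.1) (v t.2.2)) := by
      rintro ⟨i, j, k⟩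
      refine small_update b k _ fun v => ?_
      by_cases hik : i = k
      · simp [hik]
      by_cases hjk : j = k
      · simp [hjk]
      by_cases hadj : G.Adj (v i) (v j)
      · refine le_trans (Finset.card_le_card ?_)
          (hbook (v i) (z s(v i, v j)) (hz _ _ hadj).1)
        intro w hw
        simp only [Finset.mem_filter, Finset.mem_univ, true_and,
          Function.update_self, Function.update_of_ne hik, Function.update_of_ne hjk] at hw ⊢
        exact ⟨hw.2.2.2.2, hw.2.2.2.1⟩
      · simp [Function.update_of_ne hik, Function.update_of_ne hjk, hadj]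
    have hT4 : ∀ t : Fin 5 × Fin 5 × Fin 5 × Fin 5, Small V b 1
        (fun v => t.2.2.2 ≠ t.1 ∧ t.2.2.2 ≠ t.2.1 ∧ t.2.2.2 ≠ t.2.2.1 ∧
          G.Adj (z s(v t.1, v t.2.1)) (v t.2.2.1) ∧
          G.Adj (z s(v t.1, v t.2.1)) (v t.2.2.2) ∧ G.Adj (v t.2.2.1) (v t.2.2.2)) := by
      rintro ⟨i, j, k, l⟩
      refine small_update b l _ fun v => ?_
      by_cases hil : i = l
      · simp [hil]
      by_cases hjl : j = l
      · simp [hjl]
      by_cases hkl : k = l
      · simp [hkl]
      by_cases hadj : G.Adj (z s(v i, v j)) (v k)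
      · refine le_trans (Finset.card_le_card ?_) (hbook (z s(v i, v j)) (v k) hadj)
        intro w hw
        simp only [Finset.mem_filter, Finset.mem_univ, true_and,
          Function.update_self, Function.update_of_ne hil, Function.update_of_ne hjl,
          Function.update_of_ne hkl] at hw ⊢
        exact ⟨hw.2.2.2.2.1, hw.2.2.2.2.2⟩
      · simp [Function.update_of_ne hil, Function.update_of_ne hjl, Function.update_of_ne hkl, hadj]
    have hall := (small_exists hT2).or ((small_exists hT3).or (small_exists hT4))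
    refine hall.mono ?_
    intro v hv
    by_contra hcon
    push Not at hcon
    obtain ⟨c2, c3, c4⟩ := hcon
    apply hv
    refine ⟨?_, ?_, ?_, ?_, ?_, ?_, ?_, ?_⟩
    · intro i
      rw [← Bool.not_eq_true]
      intro h
      exact ((hAdef _ _).mp h).ne rfl
    · intro i j
      have : (A5 v i j = true) ↔ (A5 v j i = true) :=
        ((hAdef _ _).trans (G.adj_comm _ _)).trans (hAdef _ _).symm
      exact Bool.eq_iff_iff.mpr this
    · intro i j k hij hjk
      by_contra hik
      rw [Bool.not_eq_false] at hik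
      have hij' : G.Adj (v i) (v j) := (hAdef _ _).mp hij
      have hjk' : G.Adj (v j) (v k) := (hAdef _ _).mp hjk
      have hik' : G.Adj (v i) (v k) := (hAdef _ _).mp hik
      have n1 : i ≠ k := by
        rintro rfl
        exact hik'.ne rfl
      have n2 : j ≠ k := by
        rintro rfl
        exact hjk'.ne rfl
      exact c2 (i, j, k) n1 n2 hij' hjk' hik'
    · intro i j k
      have : (B5 v i j k = true) ↔ (B5 v j i k = true) := by
        rw [hB5, hB5, Sym2.eq_swap (a := v j) (b := v i)]
        constructor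
        · rintro ⟨a1, a2, a3, a4⟩
          exact ⟨a2, a1, a3.symm, a4⟩
        · rintro ⟨a1, a2, a3, a4⟩
          exact ⟨a2, a1, a3.symm, a4⟩
      exact Bool.eq_iff_iff.mpr this
    · intro i j k h
      rw [hB5] at h
      exact (hAdef _ _).mpr h.2.2.1
    · intro i j k h
      rw [hB5] at h
      exact h.1
    · intro i j k h
      rw [hB5] at h
      by_contra hik
      rw [Bool.not_eq_false] at hik
      have hik' : G.Adj (v i) (v k) := (hAdef _ _).mp hik
      exact c3 (i, j, k) h.1 h.2.1 h.2.2.1 h.2.2.2 hik'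
    · intro i j k l h1 h2
      rw [hB5] at h1 h2
      by_contra hkl
      rw [Bool.not_eq_false] at hkl
      have hkl' : G.Adj (v k) (v l) := (hAdef _ _).mp hkl
      have n1 : l ≠ k := by
        rintro rfl
        exact hkl'.ne rfl
      exact c4 (i, j, k, l) h2.1 h2.2.1 n1 h1.2.2.2 h2.2.2.2 hkl'
  -- final count
  have hfin : (Fintype.card (Fin 5 → V) : ℤ) ≤ (M + 1) * ((univ.filter Bad).card : ℤ) := by
    have h0 : (0 : ℤ) ≤ ∑ v : Fin 5 → V, ∑ σ : Equiv.Perm (Fin 5),
        phi g cd cb (A5 v) (B5 v) (σ 0) (σ 1) (σ 2) (σ 3) (σ 4) := by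
      rw [hsym]
      exact mul_nonneg (by positivity) hnn
    have h1 : ∑ v : Fin 5 → V, ∑ σ : Equiv.Perm (Fin 5),
        phi g cd cb (A5 v) (B5 v) (σ 0) (σ 1) (σ 2) (σ 3) (σ 4) ≤
        ∑ v : Fin 5 → V, ((M + 1 : ℤ) * (if Bad v then 1 else 0) - 1) := by
      refine Finset.sum_le_sum fun v _ => ?_
      by_cases hv : Bad v
      · rw [if_pos hv]
        have := hM (A5 v) (B5 v)
        linarith
      · rw [if_neg hv]
        have := hgood v hv
        linarith
    rw [Finset.sum_sub_distrib, ← Finset.mul_sum] at h1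
    have h2 : ∑ v : Fin 5 → V, (if Bad v then (1 : ℤ) else 0) = ((univ.filter Bad).card : ℤ) := by
      rw [Finset.card_filter]
      push_cast
      rfl
    rw [h2] at h1
    have h3 : ∑ _v : Fin 5 → V, (1 : ℤ) = (Fintype.card (Fin 5 → V) : ℤ) := by
      rw [Finset.sum_const, Finset.card_univ]
      simp
    rw [h3] at h1
    linarith
  have hfin' : Fintype.card (Fin 5 → V) ≤ (M + 1) * (univ.filter Bad).card := by
    exact_mod_cast hfin
  have hNpos : 0 < Fintype.card (Fin 5 → V) := Fintype.card_pos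
  have hsmall' : Fintype.card V * (univ.filter Bad).card ≤
      C0 * (b * Fintype.card (Fin 5 → V)) := by
    unfold Small at hsmall
    convert hsmall
  have hkey : Fintype.card V * Fintype.card (Fin 5 → V) ≤
      ((M + 1) * C0 * b) * Fintype.card (Fin 5 → V) := by
    calc Fintype.card V * Fintype.card (Fin 5 → V)
        ≤ Fintype.card V * ((M + 1) * (univ.filter Bad).card) := Nat.mul_le_mul_left _ hfin'
      _ = (M + 1) * (Fintype.card V * (univ.filter Bad).card) := by ring
      _ ≤ (M + 1) * (C0 * (b * Fintype.card (Fin 5 → V))) := Nat.mul_le_mul_left _ hsmall'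
      _ = _ := by ring
  exact Nat.le_of_mul_le_mul_right hkey hNpos

end Pool.Agent.Books
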