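import Pool.Agent.Books.Check

/-! Translation between the abstract integrand and its kernel-evaluated version. -/

namespace Pool.Agent.Books

open Finset

/-- key of four listed points of a structure -/
def keyG {α : Type*} (A : α → α → Bool) (B : α → α → α → Bool) (a b c x : α) : ℕ :=
  b2n (A a b) + 2 * (b2n (A a c) + 2 * (b2n (A a x) + 2 * (b2n (A b c) + 2 * (b2n (A b x) +
  2 * (b2n (A c x) + 2 * (b2n (B a b c) + 2 * (b2n (B a b x) + 2 * (b2n (B a c b) +
  2 * (b2n (B a c x) + 2 * (b2n (B a x b) + 2 * (b2n (B a x c) + 2 * (b2n (B b c a) +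
  2 * (b2n (B b c x) + 2 * (b2n (B b x a) + 2 * (b2n (B b x c) + 2 * (b2n (B c x a) +
  2 * b2n (B c x b)))))))))))))))))

/-- key of a structure on four points -/
def key4 (s : S4) : ℕ := keyG s.1 s.2 0 1 2 3

def v7i (v : V7) : Fin 7 → ℤ := ![v.x0, v.x1, v.x2, v.x3, v.x4, v.x5, v.x6]

def gO (o : Option V7) (i : Fin 7) : ℤ :=
  match o with
  | some v => v7i v i
  | none => 0

/-- the vector of the certificate -/
def g17 (s : S4) (i : Fin 7) : ℤ := gO (tab (key4 s)) i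
/-- first multiplier of the certificate -/
def cd17 (s : S4) : ℕ := cdT (key4 s)
/-- second multiplier of the certificate -/
def cb17 (s : S4) : ℕ := cbT (key4 s)

theorem dot_gO (o o' : Option V7) : ∑ i, gO o i * gO o' i = dotO o o' := by
  cases o <;> cases o' <;> simp [gO, dotO, v7i, Fin.sum_univ_succ]; ring

theorem key4_res4 {α : Type*} (A : α → α → Bool) (B : α → α → α → Bool) (a b c x : α) :
    key4 (res4 A B ![a, b, c, x]) = keyG A B a b c x := rfl

/-- polymorphic form of the integrand -/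
def phiG {α : Type*} (A : α → α → Bool) (B : α → α → α → Bool) (a b c x y : α) : ℤ :=
  dotO (tab (keyG A B a b c x)) (tab (keyG A B a b c y)) +
  (wt (cdT (keyG A B a b c x)) (A a y) + wt (cbT (keyG A B a b c x)) (B a b y))

theorem wt_eq (c : ℕ) (b : Bool) : wt c b = (c : ℤ) * (17 * bi b - 5) := by
  cases b <;> simp [wt, bi]

theorem phi_eq {α : Type*} (A : α → α → Bool) (B : α → α → α → Bool) (a b c x y : α) :
    phi g17 cd17 cb17 A B a b c x y = phiG A B a b c x y := by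
  unfold phi phiG g17 cd17 cb17
  rw [dot_gO, wt_eq, wt_eq]
  simp only [key4_res4]
  ring

theorem keyG_val (A : Fin 5 → Fin 5 → Bool) (B : Fin 5 → Fin 5 → Fin 5 → Bool)
    (A' : ℕ → ℕ → Bool) (B' : ℕ → ℕ → ℕ → Bool)
    (hA : ∀ i j : Fin 5, A i j = A' i j) (hB : ∀ i j k : Fin 5, B i j k = B' i j k)
    (a b c x : Fin 5) :
    keyG A B a b c x = keyN A' B' a b c x := by
  unfold keyG keyN
  rw [hA a b, hA a c, hA a x, hA b c, hA b x, hA c x, hB a b c, hB a b x, hB a c b, hB a c x,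
    hB a x b, hB a x c, hB b c a, hB b c x, hB b x a, hB b x c, hB c x a, hB c x b]

theorem phiG_val (A : Fin 5 → Fin 5 → Bool) (B : Fin 5 → Fin 5 → Fin 5 → Bool)
    (A' : ℕ → ℕ → Bool) (B' : ℕ → ℕ → ℕ → Bool)
    (hA : ∀ i j : Fin 5, A i j = A' i j) (hB : ∀ i j k : Fin 5, B i j k = B' i j k)
    (a b c x y : Fin 5) :
    phiG A B a b c x y = phiN A' B' a b c x y := by
  unfold phiG phiN
  rw [keyG_val A B A' B' hA hB, keyG_val A B A' B' hA hB, hA, hB]

/-- the sum over permutations is a sum over distinct quintuples -/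
theorem sum_perm (F : Fin 5 → Fin 5 → Fin 5 → Fin 5 → Fin 5 → ℤ) :
    ∑ σ : Equiv.Perm (Fin 5), F (σ 0) (σ 1) (σ 2) (σ 3) (σ 4) =
    ∑ a, ∑ b, if b = a then 0 else ∑ c, if c = a ∨ c = b then 0 else
      ∑ x, if x = a ∨ x = b ∨ x = c then 0 else
      ∑ y, if y = a ∨ y = b ∨ y = c ∨ y = x then 0 else F a b c x y := by
  have h1 : ∑ σ : Equiv.Perm (Fin 5), F (σ 0) (σ 1) (σ 2) (σ 3) (σ 4) =
      ∑ t ∈ (univ : Finset (Fin 5 × Fin 5 × Fin 5 × Fin 5 × Fin 5)).filter
        (fun t => Function.Injective ![t.1, t.2.1, t.2.2.1, t.2.2.2.1, t.2.2.2.2]),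
        F t.1 t.2.1 t.2.2.1 t.2.2.2.1 t.2.2.2.2 := by
    refine Finset.sum_bij (fun σ _ => (σ 0, σ 1, σ 2, σ 3, σ 4)) ?_ ?_ ?_ ?_
    · intro σ _
      simp only [mem_filter, mem_univ, true_and]
      have : (![σ 0, σ 1, σ 2, σ 3, σ 4] : Fin 5 → Fin 5) = σ := by
        funext i; fin_cases i <;> rfl
      rw [this]; exact σ.injective
    · intro σ _ τ _ h
      simp only [Prod.mk.injEq] at h
      obtain ⟨h0, h1, h2, h3, h4⟩ := h
      ext i
      fin_cases i <;> simp [h0, h1, h2, h3, h4]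
    · intro t ht
      simp only [mem_filter, mem_univ, true_and] at ht
      refine ⟨Equiv.ofBijective _ (Finite.injective_iff_bijective.mp ht), mem_univ _, ?_⟩
      rfl
    · intro σ _; rfl
  rw [h1, Finset.sum_filter, Fintype.sum_prod_type]
  refine Finset.sum_congr rfl fun a _ => ?_
  rw [Fintype.sum_prod_type]
  refine Finset.sum_congr rfl fun b _ => ?_
  rw [Fintype.sum_prod_type]
  have key : ∀ a b c x y : Fin 5, Function.Injective ![a, b, c, x, y] ↔
      ¬ (b = a) ∧ ¬ (c = a ∨ c = b) ∧ ¬ (x = a ∨ x = b ∨ x = c) ∧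
      ¬ (y = a ∨ y = b ∨ y = c ∨ y = x) := by
    intro a b c x y
    rw [← List.nodup_ofFn]
    have e : List.ofFn ![a, b, c, x, y] = [a, b, c, x, y] := rfl
    rw [e]
    simp only [List.nodup_cons, List.mem_cons, List.not_mem_nil, or_false, not_or,
      not_false_eq_true, List.nodup_nil, and_true, @eq_comm _ b a, @eq_comm _ c a, @eq_comm _ c b,
      @eq_comm _ x a, @eq_comm _ x b, @eq_comm _ x c, @eq_comm _ y a, @eq_comm _ y b,
      @eq_comm _ y c, @eq_comm _ y x]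
    constructor
    · rintro ⟨⟨h1, h2, h3, h4⟩, ⟨h5, h6, h7⟩, ⟨h8, h9⟩, h10⟩
      exact ⟨h1, ⟨h2, h5⟩, ⟨h3, h6, h8⟩, h4, h7, h9, h10⟩
    · rintro ⟨h1, ⟨h2, h5⟩, ⟨h3, h6, h8⟩, h4, h7, h9, h10⟩
      exact ⟨⟨h1, h2, h3, h4⟩, ⟨h5, h6, h7⟩, ⟨h8, h9⟩, h10⟩
  by_cases hb : b = a
  · rw [if_pos hb]
    refine Finset.sum_eq_zero fun c _ => ?_
    rw [Fintype.sum_prod_type]
    refine Finset.sum_eq_zero fun x _ => Finset.sum_eq_zero fun y _ => ?_
    exact if_neg fun h => ((key a b c x y).1 h).1 hb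
  · rw [if_neg hb]
    refine Finset.sum_congr rfl fun c _ => ?_
    rw [Fintype.sum_prod_type]
    by_cases hc : c = a ∨ c = b
    · rw [if_pos hc]
      refine Finset.sum_eq_zero fun x _ => Finset.sum_eq_zero fun y _ => ?_
      exact if_neg fun h => ((key a b c x y).1 h).2.1 hc
    · rw [if_neg hc]
      refine Finset.sum_congr rfl fun x _ => ?_
      by_cases hx : x = a ∨ x = b ∨ x = c
      · rw [if_pos hx]
        refine Finset.sum_eq_zero fun y _ => ?_
        exact if_neg fun h => ((key a b c x y).1 h).2.2.1 hx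
      · rw [if_neg hx]
        refine Finset.sum_congr rfl fun y _ => ?_
        by_cases hy : y = a ∨ y = b ∨ y = c ∨ y = x
        · rw [if_pos hy]
          exact if_neg fun h => ((key a b c x y).1 h).2.2.2 hy
        · rw [if_neg hy]
          exact if_pos ((key a b c x y).2 ⟨hb, hc, hx, hy⟩)

theorem sumN_eq (f : ℕ → ℤ) : sumN f = ∑ i : Fin 5, f i := by
  simp [sumN, Fin.sum_univ_succ]

theorem psiN_eq (A' : ℕ → ℕ → Bool) (B' : ℕ → ℕ → ℕ → Bool) :
    psiN A' B' = ∑ a : Fin 5, ∑ b : Fin 5, if b = a then 0 else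
      ∑ c : Fin 5, if c = a ∨ c = b then 0 else
      ∑ x : Fin 5, if x = a ∨ x = b ∨ x = c then 0 else
      ∑ y : Fin 5, if y = a ∨ y = b ∨ y = c ∨ y = x then 0 else phiN A' B' a b c x y := by
  unfold psiN
  rw [sumN_eq]
  refine Finset.sum_congr rfl fun a _ => ?_
  rw [sumN_eq]
  refine Finset.sum_congr rfl fun b _ => ?_
  by_cases hb : b = a
  · rw [if_pos hb]; subst hb; simp
  rw [if_neg hb]
  have e1 : Nat.beq (b : ℕ) (a : ℕ) = false := by
    rw [Bool.eq_false_iff, Ne, Nat.beq_eq]; exact fun h => hb (Fin.ext h)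
  rw [e1]; simp only [cond_false]
  rw [sumN_eq]
  refine Finset.sum_congr rfl fun c _ => ?_
  by_cases hc : c = a ∨ c = b
  · rw [if_pos hc]
    rcases hc with rfl | rfl <;> simp
  rw [if_neg hc]
  push Not at hc
  have e2 : Nat.beq (c : ℕ) (a : ℕ) = false := by
    rw [Bool.eq_false_iff, Ne, Nat.beq_eq]; exact fun h => hc.1 (Fin.ext h)
  have e3 : Nat.beq (c : ℕ) (b : ℕ) = false := by
    rw [Bool.eq_false_iff, Ne, Nat.beq_eq]; exact fun h => hc.2 (Fin.ext h)
  rw [e2, e3]; simp only [Bool.or_false, cond_false]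
  rw [sumN_eq]
  refine Finset.sum_congr rfl fun x _ => ?_
  by_cases hx : x = a ∨ x = b ∨ x = c
  · rw [if_pos hx]
    rcases hx with rfl | rfl | rfl <;> simp
  rw [if_neg hx]
  push Not at hx
  have e4 : Nat.beq (x : ℕ) (a : ℕ) = false := by
    rw [Bool.eq_false_iff, Ne, Nat.beq_eq]; exact fun h => hx.1 (Fin.ext h)
  have e5 : Nat.beq (x : ℕ) (b : ℕ) = false := by
    rw [Bool.eq_false_iff, Ne, Nat.beq_eq]; exact fun h => hx.2.1 (Fin.ext h)
  have e6 : Nat.beq (x : ℕ) (c : ℕ) = false := by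
    rw [Bool.eq_false_iff, Ne, Nat.beq_eq]; exact fun h => hx.2.2 (Fin.ext h)
  rw [e4, e5, e6]; simp only [Bool.or_false, cond_false]
  rw [sumN_eq]
  refine Finset.sum_congr rfl fun y _ => ?_
  by_cases hy : y = a ∨ y = b ∨ y = c ∨ y = x
  · rw [if_pos hy]
    rcases hy with rfl | rfl | rfl | rfl <;> simp
  rw [if_neg hy]
  push Not at hy
  have e7 : Nat.beq (y : ℕ) (a : ℕ) = false := by
    rw [Bool.eq_false_iff, Ne, Nat.beq_eq]; exact fun h => hy.1 (Fin.ext h)
  have e8 : Nat.beq (y : ℕ) (b : ℕ) = false := by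
    rw [Bool.eq_false_iff, Ne, Nat.beq_eq]; exact fun h => hy.2.1 (Fin.ext h)
  have e9 : Nat.beq (y : ℕ) (c : ℕ) = false := by
    rw [Bool.eq_false_iff, Ne, Nat.beq_eq]; exact fun h => hy.2.2.1 (Fin.ext h)
  have e10 : Nat.beq (y : ℕ) (x : ℕ) = false := by
    rw [Bool.eq_false_iff, Ne, Nat.beq_eq]; exact fun h => hy.2.2.2 (Fin.ext h)
  rw [e7, e8, e9, e10]; rfl

/-- the symmetrised integrand -/
def psi (A : Fin 5 → Fin 5 → Bool) (B : Fin 5 → Fin 5 → Fin 5 → Bool) : ℤ :=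
  ∑ σ : Equiv.Perm (Fin 5), phiG A B (σ 0) (σ 1) (σ 2) (σ 3) (σ 4)

theorem psi_val (A : Fin 5 → Fin 5 → Bool) (B : Fin 5 → Fin 5 → Fin 5 → Bool)
    (A' : ℕ → ℕ → Bool) (B' : ℕ → ℕ → ℕ → Bool)
    (hA : ∀ i j : Fin 5, A i j = A' i j) (hB : ∀ i j k : Fin 5, B i j k = B' i j k) :
    psi A B = psiN A' B' := by
  unfold psi
  rw [sum_perm (phiG A B), psiN_eq]
  simp only [phiG_val A B A' B' hA hB]

theorem phiG_comp {α β : Type*} (A : α → α → Bool) (B : α → α → α → Bool) (f : β → α)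
    (a b c x y : β) :
    phiG (fun i j => A (f i) (f j)) (fun i j k => B (f i) (f j) (f k)) a b c x y =
    phiG A B (f a) (f b) (f c) (f x) (f y) := rfl

theorem psi_perm (A : Fin 5 → Fin 5 → Bool) (B : Fin 5 → Fin 5 → Fin 5 → Bool)
    (τ : Equiv.Perm (Fin 5)) :
    psi (fun i j => A (τ i) (τ j)) (fun i j k => B (τ i) (τ j) (τ k)) = psi A B := by
  unfold psi
  simp only [phiG_comp]
  exact Equiv.sum_comp (Equiv.mulLeft τ)
    (fun σ => phiG A B (σ 0) (σ 1) (σ 2) (σ 3) (σ 4))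

theorem Valid.comp {A : Fin 5 → Fin 5 → Bool} {B : Fin 5 → Fin 5 → Fin 5 → Bool}
    (h : Valid A B) (τ : Equiv.Perm (Fin 5)) :
    Valid (fun i j => A (τ i) (τ j)) (fun i j k => B (τ i) (τ j) (τ k)) where
  irr i := h.irr _
  symm i j := h.symm _ _
  tri i j k := h.tri _ _ _
  bsymm i j k := h.bsymm _ _ _
  badj i j k := h.badj _ _ _
  bne i j k hb e := h.bne _ _ _ hb (by rw [e])
  bnon i j k := h.bnon _ _ _
  bind i j k l := h.bind _ _ _ _

/-- all multipliers of the second kind live on edges -/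
theorem hcb17 (s : S4) (h : cb17 s ≠ 0) : s.1 0 1 = true := by
  by_contra h0
  apply h
  have h0' : s.1 0 1 = false := by simpa using h0
  have : ∀ k, cbT (2 * k) = 0 := by
    intro k
    have hb : ∀ m, Nat.beq (2 * k) (2 * m + 1) = false := by
      intro m
      rw [Bool.eq_false_iff, Ne, Nat.beq_eq]
      omega
    unfold cbT
    rw [hb 4, hb 12, hb 16, hb 25, hb 48, hb 68, hb 4100, hb 4164, hb 32784, hb 32788, hb 32816]
    simp
  unfold cb17 key4 keyG
  rw [h0']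
  simpa [b2n] using this _

end Pool.Agent.Books
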