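import Pool.Agent.Books.Check
namespace Pool.Agent.Books
theorem chk_E0 : chk 0 0 [] 1 = true := by decide +kernel
theorem chk_K2 : chk 34 505330992598914995465486336 [] 8 = true := by decide +kernel
theorem chk_G2K2 : chk 139298 1425400618511362366900496783258708788918850596029017321146573780077961858993094656 [(0,1), (3,4)] 64 = true := by decide +kernel
theorem chk_P3 : chk 2210 838083498911032970141642590996529025720946579340263424 [] 16 = true := by decide +kernel
theorem chk_P4 : chk 141474 1185942577968592474556855244614953530189197989688218001761186985935390491698790400 [] 32 = true := by decide +kernel
theorem chk_P5 : chk 9054370 3798607082733555944400188549290502178448350548330663477091480939124627255279187193214559569669308874227712 [(0,1), (4,5)] 64 = true := by decide +kernel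
theorem chk_C4 : chk 174250 948568795473806039927241870822284565221910256999314361076961101934873569080115200 [] 16 = true := by decide +kernel
theorem chk_C5 : chk 10102962 2866873269987850132605113115627168426295366268647079993364233467918081222005003328806237809528865736884224 [] 32 = true := by decide +kernel
theorem chk_K13 : chk 33838 662567649291894123593748254791693090658652090961761344902786467762274304 [] 8 = true := by decide +kernel
theorem chk_K14 : chk 1082430 0 [] 1 = true := by decide +kernel
theorem chk_K23 : chk 3248028 0 [] 1 = true := by decide +kernel
theorem chk_fork : chk 8946734 20068112889913125744000996108235793207408322340361189236231559635641392499536110895277479909990845950984192 [] 16 = true := by decide +kernel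
theorem chk_K2P3 : chk 9052194 4443653568480763557600220569371065887718513391179507669067359146633745422198226629224735612038426644185088 [(0,1), (1,2), (3,4), (5,6)] 128 = true := by decide +kernel
theorem chk_ban : chk 1222842 130370302486118536117454594763499686648565931851494996484879584579241162868528372753455120384 [] 8 = true := by decide +kernel
end Pool.Agent.Books
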