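import Pool.Agent.Books.P1
import Pool.Agent.Books.T1

/-! The fourteen triangle-free graphs on five vertices, and the pointwise inequality. -/

namespace Pool.Agent.Books

open Finset

/-- adjacency codes of the fourteen graphs -/
def gaF (g : ℕ) : ℕ := [0, 34, 139298, 2210, 141474, 9054370, 174250, 10102962, 33838, 1082430, 3248028, 8946734, 9052194, 1222842].getD g 0

/-- for every graph on five points a permutation and an index in the list of graphs -/
def tableW : ℕ := 0x4b444a68c1a585353065868cd681961332c16a4068c000000000000000000000000000029a10e8654000015086800006888b00001a232b4388b07110000000000000000000000000000353225968400001a620c00005a84375190a5c41546420519000000000000000000000000000035a22594c400001a6309dc4429518000016e1095c442071100000000000000000000000000002c86a41684d2e20c5c415460a15185710285c431c44190e2000000000000000000000000000000000000000000000000000000000000000000000000000000000000000000000000000000000000000000000000000000000000000000000000000000000000000000000000000000014c88800006868c0000000002a20ce885300001a1c2b4468b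08d1000000000000000000000001a5a1000005a64400000000035421d988374e10a63415384204e100000000000000000000000000000000000000000000000000000000000000000000000000000000000000000000000a88b1a604f5405d888b000000000000004c443d88176142ec189c088b000000000000000000000001a5c09e344294e000000000036221d950300001719096344208d10000000000000000000d31a0c63415380a14e00000000002c889c188358d028634323441911a00000000000000000000000000000000000000000000000000000000000000000000000000000000000000000000000000000000000000000000000000000000000000000000000000000000000000000000000000000001aca1000005a2c400000ee1435460aa31800000ae142dc40a070a00000000000000000000000168330000042644d4e10a8385938422318570858e14113841a0e1000000000000000000000000f19435380aa2e000001b0a0c00005a30300000b1942e340a08ca0000000000000000000d5190a84659464222e0000016842c00004284358c859194114641a119000000000000000000000000ae0455c056381100000b1845630564611000018508f1111908d10000000000000000000b711085c0913809a2e0b8d108630914609a318c40c64634094640a223000000000000000000000000000000000000000000000000000000000000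0000000000000000000000000000005222300000000000000684cc000000000000006850ba8c23a216b444cb0899000000000000000000000000000000000000000000000000000000000000000000000000000000000000000000694c4000000000000005b4440000000001da8429898d7085663095a84206a1000000000000000000000000000000000000000000000000000000000000000000000000000000000000000000695030000000001e264296a0000000000000005c443d8c8565c096264208990000000002a3286981a00000000035c05588ca000000000363055870a000013190ac18d408ca00000000034c4c3189800000000015a80a16a000000000016260a1898b22350630b2264191130000000000000000000000000000000000000000000000000000000000000000000000000000000000000000006a2c4000000000000005b28400000ecc4000002a858d7102acc42d460a06620000000000000000000000000000000000000000000000000000000000000000000000000000000000000000005b08c0000000000000043444d6a10ac28558316285866a108cc411a841b0a1000000000000003c45800000000035a80ab2a000001b0b0800002c458000016cc0ae260a088b000000000000002a819000000000159116281900000b1064000061622588179106719111089900000000035c442b11100000000019c44232a0000016c429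6221e4458000010e1091c441b1110000000002d4642162200000000011a809b2a0b89908620f183111898471026cc409c440b2220000000000000000000000000000000000000000000000000000000000000000000000000000000000000000006a30300000f0b4000002a660000000000000005c283d8d02b0b42d380a085a000000000000003c29800001acc0800002b46000000000036260ac2980000170b0ada80a0853000000000000002a62100000ad08400006181a0000000001610d62621584278d087210d106a10000000000000000000000000000000000000000000000000000000000000000000000000000000000000000005c08bd8990b0265602d6266000000000000000444436899090b4122641c099000000000363442c0d100001703296029e34600000000001a34424298000011190923441c0d10000000002d3842181ab6a108604f202d116a0000000000122609c29848d0270b40a3440c21a0000151a2000006a81900001ae0440000588d100001b184400005871100001614666340c08d100001aa16000003285800000acc0800002266000000b0b08000022858b423390b4214609a10b00001ae14000002b10a00000ce14000002346000000b0a0ed888e4298000008e1421c409b10a0000166340000022621000008d08400001b460b85a18c285142192858470844e140da840b42100001b194000002c0ca00000b022ee068e32a000000d1940000024458000009194223409c0ca0000165c40000022819b662190265140592660000009106400001c45848c8451940e2640c4190000165462d18c640d1000008e0451c051346000000918452305144580000071940e3440c61198d110634214641a303871106cc08da808b46088d1070b08e2608c45838d0231940634404688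

def pidx (i j : ℕ) : ℕ := i * (9 - i) / 2 + (j - i - 1)

def codeA (n i j : ℕ) : Bool :=
  bif Nat.beq i j then false else
  bif Nat.blt i j then Nat.testBit n (pidx i j) else Nat.testBit n (pidx j i)

def entry (n : ℕ) : ℕ := (tableW >>> (19 * n)) % 524288
def dig (e i : ℕ) : ℕ := (e >>> (3 * i)) % 8
def gix (e : ℕ) : ℕ := e >>> 15

def all5 (p : ℕ → Bool) : Bool := p 0 && (p 1 && (p 2 && (p 3 && p 4)))

def tri3 (n i j k : ℕ) : Bool := codeA n i j && (codeA n j k && codeA n i k)

def hasTri (n : ℕ) : Bool :=
  tri3 n 0 1 2 || (tri3 n 0 1 3 || (tri3 n 0 1 4 || (tri3 n 0 2 3 || (tri3 n 0 2 4 ||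
  (tri3 n 0 3 4 || (tri3 n 1 2 3 || (tri3 n 1 2 4 || (tri3 n 1 3 4 || tri3 n 2 3 4))))))))

def eqb (a b : Bool) : Bool := bif a then b else !b

def okE (n e : ℕ) : Bool :=
  all5 (fun i => Nat.blt (dig e i) 5) &&
  (all5 (fun i => all5 fun j => eqb (Nat.beq (dig e i) (dig e j)) (Nat.beq i j)) &&
  (Nat.blt (gix e) 14 &&
  all5 (fun i => all5 fun j => eqb (codeA n (dig e i) (dig e j)) (accA (gaF (gix e)) i j))))

def okAll : ℕ → Bool
  | 0 => true
  | n + 1 => (hasTri n || okE n (entry n)) && okAll n

theorem okAll_true : okAll 1024 = true := by decide +kernel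

theorem okAll_spec : ∀ N, okAll N = true → ∀ n < N, (hasTri n || okE n (entry n)) = true
  | 0, _, n, h => absurd h (Nat.not_lt_zero n)
  | N + 1, h, n, hn => by
    unfold okAll at h
    rw [Bool.and_eq_true] at h
    rcases Nat.lt_succ_iff_lt_or_eq.mp hn with h1 | rfl
    · exact okAll_spec N h.2 n h1
    · exact h.1

theorem all5_spec {p : ℕ → Bool} (h : all5 p = true) (i : Fin 5) : p i = true := by
  simp only [all5, Bool.and_eq_true] at h
  obtain ⟨h0, h1, h2, h3, h4⟩ := h
  fin_cases i <;> assumption

theorem eqb_spec {a b : Bool} (h : eqb a b = true) : a = b := by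
  cases a <;> cases b <;> simp_all [eqb]

def pI : Fin 10 → Fin 5 := ![0, 0, 0, 0, 1, 1, 1, 2, 2, 3]
def pJ : Fin 10 → Fin 5 := ![1, 2, 3, 4, 2, 3, 4, 3, 4, 4]

theorem exists_code {A : Fin 5 → Fin 5 → Bool} (irr : ∀ i, A i i = false)
    (symm : ∀ i j, A i j = A j i) :
    ∃ n < 1024, ∀ i j : Fin 5, codeA n i j = A i j := by
  refine ⟨Nat.ofBits (fun p : Fin 10 => A (pI p) (pJ p)), Nat.ofBits_lt_two_pow _, ?_⟩
  have hb : ∀ p : Fin 10, Nat.testBit (Nat.ofBits (fun p : Fin 10 => A (pI p) (pJ p))) p =
      A (pI p) (pJ p) := fun p => Nat.testBit_ofBits_lt _ _ p.2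
  generalize Nat.ofBits (fun p : Fin 10 => A (pI p) (pJ p)) = n at hb
  have h0 : Nat.testBit n 0 = A 0 1 := hb 0
  have h1 : Nat.testBit n 1 = A 0 2 := hb 1
  have h2 : Nat.testBit n 2 = A 0 3 := hb 2
  have h3 : Nat.testBit n 3 = A 0 4 := hb 3
  have h4 : Nat.testBit n 4 = A 1 2 := hb 4
  have h5 : Nat.testBit n 5 = A 1 3 := hb 5
  have h6 : Nat.testBit n 6 = A 1 4 := hb 6
  have h7 : Nat.testBit n 7 = A 2 3 := hb 7
  have h8 : Nat.testBit n 8 = A 2 4 := hb 8
  have h9 : Nat.testBit n 9 = A 3 4 := hb 9
  have up : ∀ i j : Fin 5, i < j → codeA n i j = A i j := by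
    intro i j hij
    fin_cases i <;> fin_cases j <;>
      first
      | exact absurd hij (by decide)
      | (first | exact h0 | exact h1 | exact h2 | exact h3 | exact h4 | exact h5 | exact h6
               | exact h7 | exact h8 | exact h9)
  have sw : ∀ i j : Fin 5, codeA n i j = codeA n j i := by
    intro i j
    fin_cases i <;> fin_cases j <;> rfl
  intro i j
  rcases lt_trichotomy i j with h | rfl | h
  · exact up i j h
  · rw [irr]; simp [codeA]
  · rw [sw, symm]; exact up j i h

/-- consistency of the index of a graph -/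
def C2 (ga gi : ℕ) (tr : List (Fin 5 × Fin 5 × Fin 5)) : Prop :=
  ∀ i j k : Fin 5,
    ((gi >>> (3 * (25 * (i : ℕ) + 5 * (j : ℕ) + (k : ℕ)))) % 8 = 0 ∧
      (accA ga i j = false ∨ accA ga i k = true ∨ accA ga j k = true ∨ k = i ∨ k = j)) ∨
    (0 < (gi >>> (3 * (25 * (i : ℕ) + 5 * (j : ℕ) + (k : ℕ)))) % 8 ∧
      (tr[(gi >>> (3 * (25 * (i : ℕ) + 5 * (j : ℕ) + (k : ℕ)))) % 8 - 1]? = some (i, j, k) ∨
       tr[(gi >>> (3 * (25 * (i : ℕ) + 5 * (j : ℕ) + (k : ℕ)))) % 8 - 1]? = some (j, i, k)))

/-- consistency of the list of conflicts of a graph -/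
def C3 (ga : ℕ) (cf : List (ℕ × ℕ)) (tr : List (Fin 5 × Fin 5 × Fin 5)) : Prop :=
  ∀ p ∈ cf, ∃ i j k l : Fin 5, tr[p.1]? = some (i, j, k) ∧ tr[p.2]? = some (i, j, l) ∧
    accA ga k l = true

instance (ga gi : ℕ) (tr : List (Fin 5 × Fin 5 × Fin 5)) : Decidable (C2 ga gi tr) := by
  unfold C2; infer_instance
instance (ga : ℕ) (cf : List (ℕ × ℕ)) (tr : List (Fin 5 × Fin 5 × Fin 5)) :
    Decidable (C3 ga cf tr) := by
  unfold C3; infer_instance

theorem chk_spec (ga gi : ℕ) (cf : List (ℕ × ℕ)) : ∀ N, chk ga gi cf N = true →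
    ∀ n < N, (confl cf n || negI (psiN (accA ga) (accB gi n))) = true
  | 0, _, n, h => absurd h (Nat.not_lt_zero n)
  | N + 1, h, n, hn => by
    unfold chk at h
    rw [Bool.and_eq_true] at h
    rcases Nat.lt_succ_iff_lt_or_eq.mp hn with h1 | rfl
    · exact chk_spec ga gi cf N h.2 n h1
    · exact h.1

theorem negI_spec (z : ℤ) (h : negI z = true) : z ≤ -1 := by
  cases z with
  | ofNat a => simp [negI] at h
  | negSucc a => omega

theorem graph_case (ga gi : ℕ) (cf : List (ℕ × ℕ)) (tr : List (Fin 5 × Fin 5 × Fin 5))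
    (hchk : chk ga gi cf (2 ^ tr.length) = true) (h2 : C2 ga gi tr) (h3 : C3 ga cf tr)
    (A : Fin 5 → Fin 5 → Bool) (B : Fin 5 → Fin 5 → Fin 5 → Bool) (hV : Valid A B)
    (hA : ∀ i j : Fin 5, A i j = accA ga i j) : psi A B ≤ -1 := by
  have hn : Nat.ofBits (fun t : Fin tr.length => B (tr.get t).1 (tr.get t).2.1 (tr.get t).2.2)
      < 2 ^ tr.length := Nat.ofBits_lt_two_pow _
  have hb : ∀ (t : ℕ) (i j k : Fin 5), tr[t]? = some (i, j, k) →
      Nat.testBit (Nat.ofBits
        (fun t : Fin tr.length => B (tr.get t).1 (tr.get t).2.1 (tr.get t).2.2)) t = B i j k := by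
    intro t i j k h
    obtain ⟨ht, hv⟩ := List.getElem?_eq_some_iff.mp h
    rw [Nat.testBit_ofBits_lt _ _ ht]
    simp only [List.get_eq_getElem]
    rw [hv]
  generalize Nat.ofBits (fun t : Fin tr.length => B (tr.get t).1 (tr.get t).2.1 (tr.get t).2.2)
    = n at hn hb
  have hB : ∀ i j k : Fin 5, B i j k = accB gi n i j k := by
    intro i j k
    unfold accB
    rcases h2 i j k with ⟨h0, hc⟩ | ⟨h0, hc⟩
    · rw [h0]
      have e0 : Nat.testBit (2 * n) 0 = false := by simp
      rw [e0, ← Bool.not_eq_true]
      intro hbt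
      rcases hc with hc | hc | hc | hc | hc
      · have := hV.badj _ _ _ hbt
        rw [hA, hc] at this; exact absurd this (by decide)
      · have := hV.bnon _ _ _ hbt
        rw [hA, hc] at this; exact absurd this (by decide)
      · rw [hV.bsymm] at hbt
        have := hV.bnon _ _ _ hbt
        rw [hA, hc] at this; exact absurd this (by decide)
      · exact hV.bne _ _ _ hbt hc
      · rw [hV.bsymm] at hbt
        exact hV.bne _ _ _ hbt hc
    · obtain ⟨t, ht⟩ := Nat.exists_eq_succ_of_ne_zero (Nat.pos_iff_ne_zero.mp h0)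
      rw [ht] at hc ⊢
      have e1 : Nat.testBit (2 * n) (t + 1) = Nat.testBit n t := by
        rw [Nat.testBit_succ, Nat.mul_div_cancel_left _ (by norm_num)]
      rw [Nat.succ_eq_add_one, e1]
      rw [Nat.succ_eq_add_one, Nat.add_sub_cancel] at hc
      rcases hc with hc | hc
      · exact (hb t _ _ _ hc).symm
      · rw [hV.bsymm]; exact (hb t _ _ _ hc).symm
  have hcf : confl cf n = false := by
    rw [← Bool.not_eq_true]
    intro h
    unfold confl at h
    rw [List.any_eq_true] at h
    obtain ⟨p, hp, hpt⟩ := h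
    rw [Bool.and_eq_true] at hpt
    obtain ⟨i, j, k, l, e1, e2, e3⟩ := h3 p hp
    rw [hb _ _ _ _ e1, hb _ _ _ _ e2] at hpt
    have := hV.bind i j k l hpt.1 hpt.2
    rw [hA, e3] at this
    exact absurd this (by decide)
  have := chk_spec ga gi cf _ hchk n hn
  rw [hcf, Bool.false_or] at this
  rw [psi_val A B _ _ hA hB]
  exact negI_spec _ this

theorem case_E0 (A : Fin 5 → Fin 5 → Bool) (B : Fin 5 → Fin 5 → Fin 5 → Bool)
    (hV : Valid A B) (hA : ∀ i j : Fin 5, A i j = accA (gaF 0) i j) : psi A B ≤ -1 :=
  graph_case 0 0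
    [] [] chk_E0 (by decide +kernel) (by decide +kernel) A B hV hA

theorem case_K2 (A : Fin 5 → Fin 5 → Bool) (B : Fin 5 → Fin 5 → Fin 5 → Bool)
    (hV : Valid A B) (hA : ∀ i j : Fin 5, A i j = accA (gaF 1) i j) : psi A B ≤ -1 :=
  graph_case 34 505330992598914995465486336
    [] [(0, 1, 2), (0, 1, 3), (0, 1, 4)] chk_K2 (by decide +kernel) (by decide +kernel) A B hV hA

theorem case_G2K2 (A : Fin 5 → Fin 5 → Bool) (B : Fin 5 → Fin 5 → Fin 5 → Bool)
    (hV : Valid A B) (hA : ∀ i j : Fin 5, A i j = accA (gaF 2) i j) : psi A B ≤ -1 :=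
  graph_case 139298 1425400618511362366900496783258708788918850596029017321146573780077961858993094656
    [(0, 1), (3, 4)] [(0, 1, 2), (0, 1, 3), (0, 1, 4), (2, 3, 0), (2, 3, 1), (2, 3, 4)] chk_G2K2 (by decide +kernel) (by decide +kernel) A B hV hA

theorem case_P3 (A : Fin 5 → Fin 5 → Bool) (B : Fin 5 → Fin 5 → Fin 5 → Bool)
    (hV : Valid A B) (hA : ∀ i j : Fin 5, A i j = accA (gaF 3) i j) : psi A B ≤ -1 :=
  graph_case 2210 838083498911032970141642590996529025720946579340263424
    [] [(0, 1, 3), (0, 1, 4), (1, 2, 3), (1, 2, 4)] chk_P3 (by decide +kernel) (by decide +kernel) A B hV hA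

theorem case_P4 (A : Fin 5 → Fin 5 → Bool) (B : Fin 5 → Fin 5 → Fin 5 → Bool)
    (hV : Valid A B) (hA : ∀ i j : Fin 5, A i j = accA (gaF 4) i j) : psi A B ≤ -1 :=
  graph_case 141474 1185942577968592474556855244614953530189197989688218001761186985935390491698790400
    [] [(0, 1, 3), (0, 1, 4), (1, 2, 4), (2, 3, 0), (2, 3, 4)] chk_P4 (by decide +kernel) (by decide +kernel) A B hV hA

theorem case_P5 (A : Fin 5 → Fin 5 → Bool) (B : Fin 5 → Fin 5 → Fin 5 → Bool)
    (hV : Valid A B) (hA : ∀ i j : Fin 5, A i j = accA (gaF 5) i j) : psi A B ≤ -1 :=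
  graph_case 9054370 3798607082733555944400188549290502178448350548330663477091480939124627255279187193214559569669308874227712
    [(0, 1), (4, 5)] [(0, 1, 3), (0, 1, 4), (1, 2, 4), (2, 3, 0), (3, 4, 0), (3, 4, 1)] chk_P5 (by decide +kernel) (by decide +kernel) A B hV hA

theorem case_C4 (A : Fin 5 → Fin 5 → Bool) (B : Fin 5 → Fin 5 → Fin 5 → Bool)
    (hV : Valid A B) (hA : ∀ i j : Fin 5, A i j = accA (gaF 6) i j) : psi A B ≤ -1 :=
  graph_case 174250 948568795473806039927241870822284565221910256999314361076961101934873569080115200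
    [] [(0, 1, 4), (0, 3, 4), (1, 2, 4), (2, 3, 4)] chk_C4 (by decide +kernel) (by decide +kernel) A B hV hA

theorem case_C5 (A : Fin 5 → Fin 5 → Bool) (B : Fin 5 → Fin 5 → Fin 5 → Bool)
    (hV : Valid A B) (hA : ∀ i j : Fin 5, A i j = accA (gaF 7) i j) : psi A B ≤ -1 :=
  graph_case 10102962 2866873269987850132605113115627168426295366268647079993364233467918081222005003328806237809528865736884224
    [] [(0, 1, 3), (0, 4, 2), (1, 2, 4), (2, 3, 0), (3, 4, 1)] chk_C5 (by decide +kernel) (by decide +kernel) A B hV hA

theorem case_K13 (A : Fin 5 → Fin 5 → Bool) (B : Fin 5 → Fin 5 → Fin 5 → Bool)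
    (hV : Valid A B) (hA : ∀ i j : Fin 5, A i j = accA (gaF 8) i j) : psi A B ≤ -1 :=
  graph_case 33838 662567649291894123593748254791693090658652090961761344902786467762274304
    [] [(0, 1, 4), (0, 2, 4), (0, 3, 4)] chk_K13 (by decide +kernel) (by decide +kernel) A B hV hA

theorem case_K14 (A : Fin 5 → Fin 5 → Bool) (B : Fin 5 → Fin 5 → Fin 5 → Bool)
    (hV : Valid A B) (hA : ∀ i j : Fin 5, A i j = accA (gaF 9) i j) : psi A B ≤ -1 :=
  graph_case 1082430 0
    [] [] chk_K14 (by decide +kernel) (by decide +kernel) A B hV hA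

theorem case_K23 (A : Fin 5 → Fin 5 → Bool) (B : Fin 5 → Fin 5 → Fin 5 → Bool)
    (hV : Valid A B) (hA : ∀ i j : Fin 5, A i j = accA (gaF 10) i j) : psi A B ≤ -1 :=
  graph_case 3248028 0
    [] [] chk_K23 (by decide +kernel) (by decide +kernel) A B hV hA

theorem case_fork (A : Fin 5 → Fin 5 → Bool) (B : Fin 5 → Fin 5 → Fin 5 → Bool)
    (hV : Valid A B) (hA : ∀ i j : Fin 5, A i j = accA (gaF 11) i j) : psi A B ≤ -1 :=
  graph_case 8946734 20068112889913125744000996108235793207408322340361189236231559635641392499536110895277479909990845950984192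
    [] [(0, 1, 4), (0, 2, 4), (3, 4, 1), (3, 4, 2)] chk_fork (by decide +kernel) (by decide +kernel) A B hV hA

theorem case_K2P3 (A : Fin 5 → Fin 5 → Bool) (B : Fin 5 → Fin 5 → Fin 5 → Bool)
    (hV : Valid A B) (hA : ∀ i j : Fin 5, A i j = accA (gaF 12) i j) : psi A B ≤ -1 :=
  graph_case 9052194 4443653568480763557600220569371065887718513391179507669067359146633745422198226629224735612038426644185088
    [(0, 1), (1, 2), (3, 4), (5, 6)] [(0, 1, 2), (0, 1, 3), (0, 1, 4), (2, 3, 0), (2, 3, 1), (3, 4, 0), (3, 4, 1)] chk_K2P3 (by decide +kernel) (by decide +kernel) A B hV hA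

theorem case_ban (A : Fin 5 → Fin 5 → Bool) (B : Fin 5 → Fin 5 → Fin 5 → Bool)
    (hV : Valid A B) (hA : ∀ i j : Fin 5, A i j = accA (gaF 13) i j) : psi A B ≤ -1 :=
  graph_case 1222842 130370302486118536117454594763499686648565931851494996484879584579241162868528372753455120384
    [] [(0, 4, 2), (1, 2, 4), (2, 3, 4)] chk_ban (by decide +kernel) (by decide +kernel) A B hV hA

theorem graph_all (g : ℕ) (hg : g < 14) (A : Fin 5 → Fin 5 → Bool)
    (B : Fin 5 → Fin 5 → Fin 5 → Bool)
    (hV : Valid A B) (hA : ∀ i j : Fin 5, A i j = accA (gaF g) i j) : psi A B ≤ -1 := by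
  interval_cases g
  · exact case_E0 A B hV hA
  · exact case_K2 A B hV hA
  · exact case_G2K2 A B hV hA
  · exact case_P3 A B hV hA
  · exact case_P4 A B hV hA
  · exact case_P5 A B hV hA
  · exact case_C4 A B hV hA
  · exact case_C5 A B hV hA
  · exact case_K13 A B hV hA
  · exact case_K14 A B hV hA
  · exact case_K23 A B hV hA
  · exact case_fork A B hV hA
  · exact case_K2P3 A B hV hA
  · exact case_ban A B hV hA

theorem psi_neg (A : Fin 5 → Fin 5 → Bool) (B : Fin 5 → Fin 5 → Fin 5 → Bool)
    (hV : Valid A B) : psi A B ≤ -1 := by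
  obtain ⟨n, hn, hcode⟩ := exists_code hV.irr hV.symm
  have h := okAll_spec 1024 okAll_true n hn
  rw [Bool.or_eq_true] at h
  rcases h with h | h
  · exfalso
    have tri : ∀ i j k : Fin 5, tri3 n i j k = false := by
      intro i j k
      rw [← Bool.not_eq_true]
      intro ht
      unfold tri3 at ht
      rw [Bool.and_eq_true, Bool.and_eq_true, hcode, hcode, hcode] at ht
      have := hV.tri i j k ht.1 ht.2.1
      rw [ht.2.2] at this
      exact absurd this (by decide)
    unfold hasTri at h
    have t1 : tri3 n 0 1 2 = false := tri 0 1 2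
    have t2 : tri3 n 0 1 3 = false := tri 0 1 3
    have t3 : tri3 n 0 1 4 = false := tri 0 1 4
    have t4 : tri3 n 0 2 3 = false := tri 0 2 3
    have t5 : tri3 n 0 2 4 = false := tri 0 2 4
    have t6 : tri3 n 0 3 4 = false := tri 0 3 4
    have t7 : tri3 n 1 2 3 = false := tri 1 2 3
    have t8 : tri3 n 1 2 4 = false := tri 1 2 4
    have t9 : tri3 n 1 3 4 = false := tri 1 3 4
    have t10 : tri3 n 2 3 4 = false := tri 2 3 4
    rw [t1, t2, t3, t4, t5, t6, t7, t8, t9, t10] at h
    exact absurd h (by decide)
  · unfold okE at h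
    rw [Bool.and_eq_true, Bool.and_eq_true, Bool.and_eq_true] at h
    obtain ⟨hlt, hinj, hg, hadj⟩ := h
    have hlt' : ∀ i : Fin 5, dig (entry n) i < 5 := fun i => by
      have := all5_spec hlt i
      simpa [Nat.blt_eq] using this
    have hinj' : ∀ i j : Fin 5, dig (entry n) i = dig (entry n) j → i = j := by
      intro i j hij
      have := eqb_spec (all5_spec (all5_spec hinj i) j)
      rw [Nat.beq_eq.mpr hij] at this
      exact Fin.ext (Nat.beq_eq.mp this.symm)
    let τ : Equiv.Perm (Fin 5) := Equiv.ofBijective (fun i => ⟨dig (entry n) i, hlt' i⟩)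
      (Finite.injective_iff_bijective.mp (fun i j hij => hinj' i j (by simpa using hij)))
    rw [← psi_perm A B τ]
    refine graph_all (gix (entry n)) (by simpa [Nat.blt_eq] using hg) _ _ (hV.comp τ) ?_
    intro i j
    have := eqb_spec (all5_spec (all5_spec hadj i) j)
    rw [← this]
    exact (hcode (τ i) (τ j)).symm

theorem pointwise17 : Pointwise g17 cd17 cb17 := by
  intro A B hV
  have := psi_neg A B hV
  unfold psi at this
  simpa only [phi_eq] using this

end Pool.Agent.Books
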