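import Pool.Agent.Books.Core

/-! Certificate tables (machine generated). -/

namespace Pool.Agent.Books

/-- a vector of 7 integers -/
structure V7 where
  x0 : ℤ
  x1 : ℤ
  x2 : ℤ
  x3 : ℤ
  x4 : ℤ
  x5 : ℤ
  x6 : ℤ

def tab (k : ℕ) : Option V7 :=
  (bif Nat.blt k 1286 then (bif Nat.blt k 50 then (bif Nat.blt k 20 then (bif Nat.blt k 10 then (bif Nat.blt k 4 then (bif Nat.blt k 2 then (bif Nat.beq k 0 then some ⟨Int.negSucc 34, Int.ofNat 0, Int.ofNat 0, Int.ofNat 0, Int.ofNat 0, Int.ofNat 0, Int.ofNat 0⟩ else none) else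
       (bif Nat.beq k 2 then some ⟨Int.ofNat 71, Int.ofNat 0, Int.negSucc 134, Int.negSucc 92, Int.ofNat 0, Int.ofNat 0, Int.negSucc 1⟩ else none)) else
      (bif Nat.blt k 6 then (bif Nat.beq k 4 then some ⟨Int.ofNat 168, Int.ofNat 0, Int.ofNat 15, Int.negSucc 88, Int.ofNat 5, Int.negSucc 16, Int.ofNat 0⟩ else none) else
       (bif Nat.beq k 6 then some ⟨Int.negSucc 610, Int.ofNat 331, Int.negSucc 130, Int.ofNat 372, Int.ofNat 159, Int.ofNat 129, Int.negSucc 34⟩ else none))) else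
     (bif Nat.blt k 16 then (bif Nat.blt k 14 then (bif Nat.beq k 10 then some ⟨Int.ofNat 410, Int.ofNat 0, Int.ofNat 0, Int.ofNat 0, Int.ofNat 0, Int.ofNat 0, Int.ofNat 0⟩ else none) else
       (bif Nat.beq k 14 then some ⟨Int.negSucc 427, Int.ofNat 191, Int.negSucc 494, Int.ofNat 0, Int.ofNat 0, Int.ofNat 0, Int.ofNat 0⟩ else none)) else
      (bif Nat.blt k 18 then (bif Nat.beq k 16 then some ⟨Int.ofNat 168, Int.ofNat 0, Int.negSucc 83, Int.ofNat 31, Int.negSucc 16, Int.ofNat 4, Int.ofNat 0⟩ else none) else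
       (bif Nat.beq k 18 then some ⟨Int.ofNat 1286, Int.ofNat 0, Int.ofNat 834, Int.ofNat 729, Int.ofNat 0, Int.ofNat 0, Int.ofNat 130⟩ else none)))) else
    (bif Nat.blt k 32 then (bif Nat.blt k 26 then (bif Nat.blt k 22 then (bif Nat.beq k 20 then some ⟨Int.negSucc 311, Int.ofNat 0, Int.ofNat 20, Int.ofNat 17, Int.ofNat 8, Int.ofNat 9, Int.ofNat 0⟩ else none) else
       (bif Nat.beq k 22 then some ⟨Int.negSucc 8, Int.negSucc 91, Int.ofNat 246, Int.ofNat 424, Int.ofNat 319, Int.ofNat 335, Int.ofNat 18⟩ else none)) else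
      (bif Nat.blt k 30 then (bif Nat.beq k 26 then some ⟨Int.negSucc 427, Int.negSucc 190, Int.ofNat 495, Int.ofNat 0, Int.ofNat 0, Int.ofNat 0, Int.ofNat 0⟩ else none) else
       (bif Nat.beq k 30 then some ⟨Int.negSucc 650, Int.ofNat 0, Int.ofNat 0, Int.ofNat 0, Int.ofNat 0, Int.ofNat 0, Int.ofNat 0⟩ else none))) else
     (bif Nat.blt k 36 then (bif Nat.blt k 34 then (bif Nat.beq k 32 then some ⟨Int.ofNat 168, Int.ofNat 0, Int.ofNat 69, Int.ofNat 57, Int.ofNat 12, Int.ofNat 13, Int.ofNat 0⟩ else none) else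
       (bif Nat.beq k 34 then some ⟨Int.negSucc 610, Int.negSucc 330, Int.negSucc 130, Int.ofNat 372, Int.negSucc 158, Int.negSucc 128, Int.negSucc 34⟩ else none)) else
      (bif Nat.blt k 42 then (bif Nat.beq k 36 then some ⟨Int.negSucc 311, Int.ofNat 0, Int.negSucc 24, Int.ofNat 9, Int.negSucc 11, Int.ofNat 3, Int.ofNat 0⟩ else none) else
       (bif Nat.blt k 48 then (bif Nat.beq k 42 then some ⟨Int.negSucc 824, Int.ofNat 0, Int.ofNat 0, Int.ofNat 0, Int.ofNat 0, Int.ofNat 0, Int.ofNat 0⟩ else none) else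
        (bif Nat.beq k 48 then some ⟨Int.negSucc 311, Int.ofNat 0, Int.ofNat 4, Int.negSucc 25, Int.ofNat 4, Int.negSucc 11, Int.ofNat 0⟩ else none)))))) else
   (bif Nat.blt k 514 then (bif Nat.blt k 274 then (bif Nat.blt k 258 then (bif Nat.blt k 52 then (bif Nat.beq k 50 then some ⟨Int.negSucc 8, Int.ofNat 92, Int.ofNat 246, Int.ofNat 424, Int.negSucc 318, Int.negSucc 334, Int.ofNat 18⟩ else none) else
       (bif Nat.beq k 52 then some ⟨Int.ofNat 225, Int.ofNat 0, Int.ofNat 0, Int.ofNat 0, Int.ofNat 0, Int.ofNat 0, Int.ofNat 0⟩ else none)) else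
      (bif Nat.blt k 262 then (bif Nat.beq k 258 then some ⟨Int.negSucc 104, Int.negSucc 335, Int.ofNat 0, Int.ofNat 0, Int.ofNat 0, Int.ofNat 0, Int.ofNat 0⟩ else none) else
       (bif Nat.beq k 262 then some ⟨Int.negSucc 259, Int.negSucc 92, Int.ofNat 432, Int.ofNat 0, Int.ofNat 0, Int.ofNat 0, Int.ofNat 0⟩ else none))) else
     (bif Nat.blt k 290 then (bif Nat.blt k 278 then (bif Nat.beq k 274 then some ⟨Int.negSucc 1203, Int.ofNat 1070, Int.ofNat 0, Int.ofNat 0, Int.ofNat 0, Int.ofNat 0, Int.ofNat 0⟩ else none) else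
       (bif Nat.beq k 278 then some ⟨Int.negSucc 803, Int.negSucc 466, Int.ofNat 22, Int.ofNat 0, Int.ofNat 0, Int.ofNat 0, Int.ofNat 0⟩ else none)) else
      (bif Nat.blt k 306 then (bif Nat.beq k 290 then some ⟨Int.negSucc 259, Int.negSucc 92, Int.negSucc 431, Int.ofNat 0, Int.ofNat 0, Int.ofNat 0, Int.ofNat 0⟩ else none) else
       (bif Nat.beq k 306 then some ⟨Int.negSucc 803, Int.negSucc 466, Int.negSucc 21, Int.ofNat 0, Int.ofNat 0, Int.ofNat 0, Int.ofNat 0⟩ else none)))) else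
    (bif Nat.blt k 770 then (bif Nat.blt k 530 then (bif Nat.blt k 522 then (bif Nat.beq k 514 then some ⟨Int.ofNat 34, Int.ofNat 0, Int.ofNat 1171, Int.negSucc 1092, Int.ofNat 0, Int.ofNat 0, Int.ofNat 17⟩ else none) else
       (bif Nat.beq k 522 then some ⟨Int.ofNat 563, Int.negSucc 630, Int.negSucc 185, Int.ofNat 0, Int.ofNat 0, Int.ofNat 0, Int.ofNat 0⟩ else none)) else
      (bif Nat.blt k 538 then (bif Nat.beq k 530 then some ⟨Int.ofNat 788, Int.ofNat 0, Int.negSucc 266, Int.ofNat 422, Int.ofNat 0, Int.ofNat 0, Int.ofNat 67⟩ else none) else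
       (bif Nat.beq k 538 then some ⟨Int.ofNat 144, Int.negSucc 760, Int.ofNat 2, Int.ofNat 0, Int.ofNat 0, Int.ofNat 0, Int.ofNat 0⟩ else none))) else
     (bif Nat.blt k 1030 then (bif Nat.blt k 1028 then (bif Nat.beq k 770 then some ⟨Int.ofNat 1158, Int.ofNat 720, Int.ofNat 0, Int.ofNat 0, Int.ofNat 0, Int.ofNat 0, Int.ofNat 0⟩ else none) else
       (bif Nat.beq k 1028 then some ⟨Int.negSucc 22, Int.negSucc 263, Int.negSucc 123, Int.negSucc 378, Int.negSucc 34, Int.negSucc 94, Int.ofNat 0⟩ else none)) else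
      (bif Nat.blt k 1038 then (bif Nat.beq k 1030 then some ⟨Int.negSucc 568, Int.ofNat 1510, Int.ofNat 220, Int.ofNat 265, Int.ofNat 178, Int.ofNat 31, Int.negSucc 22⟩ else none) else
       (bif Nat.blt k 1060 then (bif Nat.beq k 1038 then some ⟨Int.negSucc 128, Int.ofNat 304, Int.negSucc 310, Int.ofNat 0, Int.ofNat 0, Int.ofNat 0, Int.ofNat 0⟩ else none) else
        (bif Nat.beq k 1060 then some ⟨Int.negSucc 583, Int.ofNat 320, Int.negSucc 338, Int.negSucc 77, Int.ofNat 110, Int.ofNat 38, Int.ofNat 0⟩ else none))))))) else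
  (bif Nat.blt k 32784 then (bif Nat.blt k 16400 then (bif Nat.blt k 8202 then (bif Nat.blt k 2068 then (bif Nat.blt k 2052 then (bif Nat.beq k 1286 then some ⟨Int.negSucc 269, Int.negSucc 736, Int.negSucc 625, Int.ofNat 0, Int.ofNat 0, Int.ofNat 0, Int.ofNat 0⟩ else none) else
       (bif Nat.beq k 2052 then some ⟨Int.negSucc 22, Int.ofNat 264, Int.ofNat 243, Int.negSucc 315, Int.ofNat 84, Int.negSucc 56, Int.ofNat 0⟩ else none)) else
      (bif Nat.blt k 3076 then (bif Nat.beq k 2068 then some ⟨Int.negSucc 583, Int.negSucc 319, Int.ofNat 346, Int.ofNat 40, Int.negSucc 110, Int.negSucc 32, Int.ofNat 0⟩ else none) else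
       (bif Nat.beq k 3076 then some ⟨Int.ofNat 602, Int.ofNat 0, Int.ofNat 12, Int.negSucc 68, Int.ofNat 4, Int.negSucc 12, Int.ofNat 0⟩ else none))) else
     (bif Nat.blt k 8714 then (bif Nat.blt k 8206 then (bif Nat.beq k 8202 then some ⟨Int.ofNat 563, Int.ofNat 631, Int.ofNat 186, Int.ofNat 0, Int.ofNat 0, Int.ofNat 0, Int.ofNat 0⟩ else none) else
       (bif Nat.beq k 8206 then some ⟨Int.ofNat 144, Int.ofNat 761, Int.negSucc 1, Int.ofNat 0, Int.ofNat 0, Int.ofNat 0, Int.ofNat 0⟩ else none)) else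
      (bif Nat.blt k 9230 then (bif Nat.beq k 8714 then some ⟨Int.ofNat 1257, Int.ofNat 0, Int.ofNat 0, Int.ofNat 0, Int.ofNat 0, Int.ofNat 0, Int.ofNat 0⟩ else none) else
       (bif Nat.beq k 9230 then some ⟨Int.ofNat 612, Int.ofNat 675, Int.ofNat 109, Int.ofNat 0, Int.ofNat 0, Int.ofNat 0, Int.ofNat 0⟩ else none)))) else
    (bif Nat.blt k 16434 then (bif Nat.blt k 16410 then (bif Nat.blt k 16402 then (bif Nat.beq k 16400 then some ⟨Int.negSucc 22, Int.ofNat 264, Int.negSucc 394, Int.negSucc 52, Int.negSucc 90, Int.negSucc 43, Int.ofNat 0⟩ else none) else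
       (bif Nat.beq k 16402 then some ⟨Int.ofNat 1152, Int.ofNat 344, Int.ofNat 238, Int.ofNat 140, Int.negSucc 691, Int.ofNat 215, Int.negSucc 188⟩ else none)) else
      (bif Nat.blt k 16432 then (bif Nat.beq k 16410 then some ⟨Int.negSucc 128, Int.negSucc 303, Int.ofNat 311, Int.ofNat 0, Int.ofNat 0, Int.ofNat 0, Int.ofNat 0⟩ else none) else
       (bif Nat.beq k 16432 then some ⟨Int.negSucc 583, Int.negSucc 319, Int.negSucc 137, Int.negSucc 318, Int.ofNat 27, Int.ofNat 113, Int.ofNat 0⟩ else none))) else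
     (bif Nat.blt k 16690 then (bif Nat.blt k 16658 then (bif Nat.beq k 16434 then some ⟨Int.ofNat 272, Int.ofNat 752, Int.ofNat 506, Int.ofNat 52, Int.negSucc 94, Int.negSucc 171, Int.ofNat 37⟩ else none) else
       (bif Nat.beq k 16658 then some ⟨Int.negSucc 771, Int.ofNat 569, Int.negSucc 522, Int.ofNat 0, Int.ofNat 0, Int.ofNat 0, Int.ofNat 0⟩ else none)) else
      (bif Nat.blt k 16914 then (bif Nat.beq k 16690 then some ⟨Int.negSucc 811, Int.negSucc 61, Int.negSucc 756, Int.ofNat 0, Int.ofNat 0, Int.ofNat 0, Int.ofNat 0⟩ else none) else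
       (bif Nat.blt k 16922 then (bif Nat.beq k 16914 then some ⟨Int.ofNat 1247, Int.ofNat 465, Int.negSucc 649, Int.negSucc 325, Int.ofNat 37, Int.negSucc 7, Int.ofNat 50⟩ else none) else
        (bif Nat.beq k 16922 then some ⟨Int.ofNat 612, Int.negSucc 674, Int.negSucc 108, Int.ofNat 0, Int.ofNat 0, Int.ofNat 0, Int.ofNat 0⟩ else none)))))) else
   (bif Nat.blt k 65568 then (bif Nat.blt k 33042 then (bif Nat.blt k 32788 then (bif Nat.blt k 32786 then (bif Nat.beq k 32784 then some ⟨Int.negSucc 22, Int.negSucc 263, Int.negSucc 265, Int.ofNat 297, Int.negSucc 64, Int.ofNat 78, Int.ofNat 0⟩ else none) else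
       (bif Nat.beq k 32786 then some ⟨Int.ofNat 1152, Int.negSucc 343, Int.ofNat 238, Int.ofNat 140, Int.ofNat 692, Int.negSucc 214, Int.negSucc 188⟩ else none)) else
      (bif Nat.blt k 32790 then (bif Nat.beq k 32788 then some ⟨Int.negSucc 583, Int.ofNat 320, Int.ofNat 102, Int.ofNat 333, Int.negSucc 21, Int.negSucc 113, Int.ofNat 0⟩ else none) else
       (bif Nat.beq k 32790 then some ⟨Int.ofNat 272, Int.negSucc 751, Int.ofNat 506, Int.ofNat 52, Int.ofNat 95, Int.ofNat 172, Int.ofNat 37⟩ else none))) else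
     (bif Nat.blt k 33298 then (bif Nat.blt k 33046 then (bif Nat.beq k 33042 then some ⟨Int.negSucc 771, Int.ofNat 569, Int.ofNat 523, Int.ofNat 0, Int.ofNat 0, Int.ofNat 0, Int.ofNat 0⟩ else none) else
       (bif Nat.beq k 33046 then some ⟨Int.negSucc 811, Int.negSucc 61, Int.ofNat 757, Int.ofNat 0, Int.ofNat 0, Int.ofNat 0, Int.ofNat 0⟩ else none)) else
      (bif Nat.blt k 34836 then (bif Nat.beq k 33298 then some ⟨Int.ofNat 1247, Int.negSucc 464, Int.negSucc 649, Int.negSucc 325, Int.negSucc 36, Int.ofNat 8, Int.ofNat 50⟩ else none) else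
       (bif Nat.blt k 49168 then (bif Nat.beq k 34836 then some ⟨Int.negSucc 780, Int.ofNat 0, Int.ofNat 32, Int.ofNat 27, Int.negSucc 23, Int.negSucc 26, Int.ofNat 0⟩ else none) else
        (bif Nat.beq k 49168 then some ⟨Int.ofNat 602, Int.ofNat 0, Int.negSucc 65, Int.ofNat 24, Int.negSucc 13, Int.ofNat 3, Int.ofNat 0⟩ else none))))) else
    (bif Nat.blt k 131106 then (bif Nat.blt k 81968 then (bif Nat.blt k 65584 then (bif Nat.beq k 65568 then some ⟨Int.negSucc 22, Int.negSucc 263, Int.ofNat 390, Int.ofNat 82, Int.ofNat 100, Int.ofNat 17, Int.ofNat 0⟩ else none) else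
       (bif Nat.beq k 65584 then some ⟨Int.negSucc 583, Int.ofNat 320, Int.ofNat 237, Int.negSucc 254, Int.negSucc 87, Int.ofNat 76, Int.ofNat 0⟩ else none)) else
      (bif Nat.blt k 131104 then (bif Nat.beq k 81968 then some ⟨Int.negSucc 780, Int.ofNat 0, Int.ofNat 7, Int.negSucc 40, Int.negSucc 10, Int.ofNat 34, Int.ofNat 0⟩ else none) else
       (bif Nat.beq k 131104 then some ⟨Int.negSucc 22, Int.ofNat 264, Int.ofNat 152, Int.ofNat 369, Int.ofNat 8, Int.ofNat 101, Int.ofNat 0⟩ else none))) else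
     (bif Nat.blt k 131362 then (bif Nat.blt k 131108 then (bif Nat.beq k 131106 then some ⟨Int.negSucc 568, Int.negSucc 1509, Int.ofNat 220, Int.ofNat 265, Int.negSucc 177, Int.negSucc 30, Int.negSucc 22⟩ else none) else
       (bif Nat.beq k 131108 then some ⟨Int.negSucc 583, Int.negSucc 319, Int.negSucc 206, Int.ofNat 280, Int.ofNat 84, Int.negSucc 79, Int.ofNat 0⟩ else none)) else
      (bif Nat.blt k 132132 then (bif Nat.beq k 131362 then some ⟨Int.negSucc 269, Int.negSucc 736, Int.ofNat 626, Int.ofNat 0, Int.ofNat 0, Int.ofNat 0, Int.ofNat 0⟩ else none) else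
       (bif Nat.blt k 196640 then (bif Nat.beq k 132132 then some ⟨Int.negSucc 780, Int.ofNat 0, Int.negSucc 38, Int.ofNat 14, Int.ofNat 35, Int.negSucc 7, Int.ofNat 0⟩ else none) else
        (bif Nat.beq k 196640 then some ⟨Int.ofNat 602, Int.ofNat 0, Int.ofNat 54, Int.ofNat 45, Int.ofNat 9, Int.ofNat 10, Int.ofNat 0⟩ else none))))))))

def cdT (k : ℕ) : ℕ :=
  (bif Nat.blt k 65569 then (bif Nat.blt k 97 then (bif Nat.blt k 33 then (bif Nat.beq k 0 then 284 else 0) else
    (bif Nat.beq k 33 then 59780 else 0)) else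
   (bif Nat.blt k 8201 then (bif Nat.beq k 97 then 13582 else 0) else
    (bif Nat.beq k 8201 then 20324 else 0))) else
  (bif Nat.blt k 131105 then (bif Nat.blt k 65633 then (bif Nat.beq k 65569 then 13649 else 0) else
    (bif Nat.beq k 65633 then 62030 else 0)) else
   (bif Nat.blt k 196640 then (bif Nat.beq k 131105 then 11651 else 0) else
    (bif Nat.beq k 196640 then 347197 else 0))))

def cbT (k : ℕ) : ℕ :=
  (bif Nat.blt k 137 then (bif Nat.blt k 33 then (bif Nat.blt k 25 then (bif Nat.beq k 9 then 15974 else 0) else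
    (bif Nat.beq k 25 then 133852 else 0)) else
   (bif Nat.blt k 51 then (bif Nat.beq k 33 then 50307 else 0) else
    (bif Nat.blt k 97 then (bif Nat.beq k 51 then 88220 else 0) else
     (bif Nat.beq k 97 then 9568 else 0)))) else
  (bif Nat.blt k 65569 then (bif Nat.blt k 8201 then (bif Nat.beq k 137 then 314762 else 0) else
    (bif Nat.blt k 8329 then (bif Nat.beq k 8201 then 121710 else 0) else
     (bif Nat.beq k 8329 then 342762 else 0))) else
   (bif Nat.blt k 65577 then (bif Nat.beq k 65569 then 13825 else 0) else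
    (bif Nat.blt k 65633 then (bif Nat.beq k 65577 then 27180 else 0) else
     (bif Nat.beq k 65633 then 638 else 0)))))

end Pool.Agent.Books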